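import Mathlib

/-!
# Oriented hypercubes in tournaments: basic tools
-/

namespace Pool.Agent.H97.QD

open Finset

variable {V : Type}

open Classical in
/-- the vertices of `B` dominated by `a` -/
noncomputable def out (T : V → V → Prop) (B : Finset V) (a : V) : Finset V :=
  B.filter (fun b => T a b)

open Classical in
/-- the vertices of `A` dominating `b` -/
noncomputable def inn (T : V → V → Prop) (A : Finset V) (b : V) : Finset V :=
  A.filter (fun a => T a b)

/-- the number of arcs from `A` to `B` -/
noncomputable def e (T : V → V → Prop) (A B : Finset V) : ℝ := ∑ a ∈ A, ((out T B a).card : ℝ)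

lemma e_eq (T : V → V → Prop) (A B : Finset V) : e T A B = ∑ b ∈ B, ((inn T A b).card : ℝ) := by
  classical
  unfold e out inn
  simp only [Finset.card_filter, Nat.cast_sum, Nat.cast_ite, Nat.cast_one, Nat.cast_zero]
  rw [Finset.sum_comm]

lemma out_subset (T : V → V → Prop) (B : Finset V) (a : V) : out T B a ⊆ B := by
  classical
  exact Finset.filter_subset _ _

lemma inn_subset (T : V → V → Prop) (A : Finset V) (b : V) : inn T A b ⊆ A := by
  classical
  exact Finset.filter_subset _ _

lemma mem_out {T : V → V → Prop} {B : Finset V} {a b : V} : b ∈ out T B a ↔ b ∈ B ∧ T a b := by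
  classical
  simp [out]

lemma mem_inn {T : V → V → Prop} {A : Finset V} {a b : V} : a ∈ inn T A b ↔ a ∈ A ∧ T a b := by
  classical
  simp [inn]

lemma card_out_le (T : V → V → Prop) (B : Finset V) (a : V) :
    ((out T B a).card : ℝ) ≤ B.card := by
  exact_mod_cast Finset.card_le_card (out_subset T B a)

lemma card_inn_le (T : V → V → Prop) (A : Finset V) (b : V) :
    ((inn T A b).card : ℝ) ≤ A.card := by
  exact_mod_cast Finset.card_le_card (inn_subset T A b)

lemma e_le (T : V → V → Prop) (A B : Finset V) : e T A B ≤ A.card * B.card := by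
  unfold e
  calc ∑ a ∈ A, ((out T B a).card : ℝ) ≤ ∑ _a ∈ A, (B.card : ℝ) :=
        Finset.sum_le_sum fun a _ => card_out_le T B a
    _ = A.card * B.card := by rw [Finset.sum_const, nsmul_eq_mul]

lemma e_nonneg (T : V → V → Prop) (A B : Finset V) : 0 ≤ e T A B :=
  Finset.sum_nonneg fun _ _ => Nat.cast_nonneg _

open Classical in
/-- A Markov type inequality: a function with average at least `u - a` which rarely exceeds `u` is
rarely below `u - b`. -/
lemma markov {α : Type} (s : Finset α) (f : α → ℝ) (u a b h : ℝ) (hu : 0 ≤ u)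
    (hf : ∀ x ∈ s, f x ≤ 1) (hsum : (u - a) * s.card ≤ ∑ x ∈ s, f x)
    (hH : ((s.filter (fun x => u < f x)).card : ℝ) ≤ h * s.card) (hb : 0 < b) :
    ((s.filter (fun x => f x < u - b)).card : ℝ) * b ≤ (a + h) * s.card := by
  have key : ∑ x ∈ s, f x ≤ ∑ x ∈ s, (u + (if u < f x then (1 : ℝ) else 0)
      - b * (if f x < u - b then (1 : ℝ) else 0)) := by
    apply Finset.sum_le_sum
    intro x hx
    have := hf x hx
    split_ifs with h1 h2 h2
    · linarith
    · linarith
    · linarith
    · linarith
  rw [Finset.sum_sub_distrib, Finset.sum_add_distrib, Finset.sum_const, nsmul_eq_mul,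
    ← Finset.mul_sum] at key
  have e1 : ∑ x ∈ s, (if u < f x then (1 : ℝ) else 0) = ((s.filter (fun x => u < f x)).card : ℝ) := by
    rw [Finset.card_filter]; push_cast; rfl
  have e2 : ∑ x ∈ s, (if f x < u - b then (1 : ℝ) else 0)
      = ((s.filter (fun x => f x < u - b)).card : ℝ) := by
    rw [Finset.card_filter]; push_cast; rfl
  rw [e1, e2] at key
  nlinarith

end Pool.Agent.H97.QD
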