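import Pool.Agent.H97.QD.Pair

/-!
# The chain of one-sidedly regular pairs
-/

namespace Pool.Agent.H97.QD

open Finset

variable {N : ℕ}

/-- Median order condition. -/
def Med (T : Fin N → Fin N → Prop) : Prop :=
  open Classical in
  ∀ (v : Fin N) (j : ℕ),
      (univ.filter (fun u : Fin N => (v < u ∧ (u : ℕ) < j) ∧ T u v)).card ≤
      (univ.filter (fun u : Fin N => (v < u ∧ (u : ℕ) < j) ∧ T v u)).card

/-- A block of consecutive vertices. -/
def blk (N c l : ℕ) : Finset (Fin N) := univ.filter (fun x : Fin N => c ≤ (x : ℕ) ∧ (x : ℕ) < c + l)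

lemma mem_blk {c l : ℕ} {x : Fin N} : x ∈ blk N c l ↔ c ≤ (x : ℕ) ∧ (x : ℕ) < c + l := by
  simp [blk]

lemma card_blk {c l : ℕ} (h : c + l ≤ N) : (blk N c l).card = l := by
  have : (blk N c l).map Fin.valEmbedding = Finset.Ico c (c + l) := by
    ext x
    simp only [Finset.mem_map, mem_blk, Fin.valEmbedding_apply, Finset.mem_Ico]
    constructor
    · rintro ⟨y, hy, rfl⟩; exact hy
    · intro hx
      exact ⟨⟨x, by omega⟩, hx, rfl⟩
  rw [← Finset.card_map Fin.valEmbedding, this, Nat.card_Ico]
  omega

open Classical in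
/-- Vertices of a block have out-density almost `1/2` into the next long block. -/
lemma deg_next {T : Fin N → Fin N → Prop} (hT : IsTournament T) (hmed : Med T) {c l r : ℕ}
    (hN : c + l + r * l ≤ N) (v : Fin N) (hv : v ∈ blk N c l) :
    r * l ≤ 2 * (out T (blk N (c + l) (r * l)) v).card + l := by
  rw [mem_blk] at hv
  set j := c + l + r * l with hj
  have hm := hmed v j
  -- total count
  have htot : (univ.filter (fun u : Fin N => (v < u ∧ (u : ℕ) < j) ∧ T u v)).card
      + (univ.filter (fun u : Fin N => (v < u ∧ (u : ℕ) < j) ∧ T v u)).card = j - v - 1 := by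
    have h1 : (univ.filter (fun u : Fin N => (v < u ∧ (u : ℕ) < j) ∧ T u v)) =
        (blk N (v + 1) (j - v - 1)).filter (fun u => ¬ T v u) := by
      ext u
      simp only [Finset.mem_filter, Finset.mem_univ, true_and, mem_blk, Fin.lt_def]
      constructor
      · rintro ⟨⟨h1, h2⟩, h3⟩
        refine ⟨⟨by omega, by omega⟩, ?_⟩
        have hne : u ≠ v := by rintro rfl; omega
        exact (hT.2 u v hne).1 h3
      · rintro ⟨⟨h1, h2⟩, h3⟩
        have hne : u ≠ v := by rintro rfl; omega
        exact ⟨⟨by omega, by omega⟩, (hT.2 u v hne).2 h3⟩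
    have h2 : (univ.filter (fun u : Fin N => (v < u ∧ (u : ℕ) < j) ∧ T v u)) =
        (blk N (v + 1) (j - v - 1)).filter (fun u => T v u) := by
      ext u
      simp only [Finset.mem_filter, Finset.mem_univ, true_and, mem_blk, Fin.lt_def]
      constructor
      · rintro ⟨⟨h1, h2⟩, h3⟩
        exact ⟨⟨by omega, by omega⟩, h3⟩
      · rintro ⟨⟨h1, h2⟩, h3⟩
        exact ⟨⟨by omega, by omega⟩, h3⟩
    rw [h1, h2, add_comm, Finset.card_filter_add_card_filter_not, card_blk (by omega)]
  have hsplit : (univ.filter (fun u : Fin N => (v < u ∧ (u : ℕ) < j) ∧ T v u)).card ≤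
      (blk N (v + 1) (c + l - v - 1)).card + (out T (blk N (c + l) (r * l)) v).card := by
    rw [← Finset.card_union_of_disjoint]
    · apply Finset.card_le_card
      intro u hu
      simp only [Finset.mem_filter, Finset.mem_univ, true_and, Fin.lt_def] at hu
      rw [Finset.mem_union, mem_out, mem_blk, mem_blk]
      by_cases h : (u : ℕ) < c + l
      · left; omega
      · right; exact ⟨by omega, hu.2⟩
    · rw [Finset.disjoint_left]
      intro u hu hu'
      rw [mem_blk] at hu
      rw [mem_out, mem_blk] at hu'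
      omega
  rw [card_blk (by omega)] at hsplit
  omega

/-- Parameters of the chain construction. -/
structure Par (q g g1 lam lam2 : ℝ) (K r l : ℕ) : Prop where
  q0 : 0 ≤ q
  g0 : 0 < g
  lam0 : 0 < lam
  lam1 : lam ≤ 1
  r0 : 0 < r
  l0 : 0 < l
  hlam2 : lam2 = lam ^ (K + 1) / (2 * r)
  hK : 1 < q + K * g
  hg1 : 2 * lam2 + g ≤ g1
  hq : q * (2 * r) + 1 ≤ r

/-- The chain. -/
lemma chain_exists {T : Fin N → Fin N → Prop} (hT : IsTournament T) (hmed : Med T)
    {q g g1 lam lam2 : ℝ} {K r l : ℕ} (hp : Par q g g1 lam lam2 K r l) (n : ℕ) :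
    ∀ (c : ℕ) (X : Finset (Fin N)), X ⊆ blk N c l → lam2 ^ K * l / 2 ≤ (X.card : ℝ) →
      c + (n + 1) * ((r + 1) * l) ≤ N →
      ∃ (W : ℕ → Finset (Fin N)) (p : ℕ → ℝ), W 0 ⊆ X ∧ lam ^ K * X.card ≤ (W 0).card ∧
        (∀ i, i ≤ n → ∀ x ∈ W i, c ≤ (x : ℕ)) ∧
        (∀ i j, i < j → j ≤ n → Disjoint (W i) (W j)) ∧
        (∀ i, i ≤ n → lam ^ K * (lam2 ^ K * l / 2) ≤ ((W i).card : ℝ)) ∧
        ∀ i, i < n → q ≤ p i ∧ p i ≤ 1 ∧
          (∀ y ∈ W (i + 1), (p i - g1) * (W i).card ≤ (inn T (W i) y).card) ∧
          (∀ A' ⊆ W i, ∀ B' ⊆ W (i + 1), lam * (W i).card ≤ A'.card →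
            lam * (W (i + 1)).card ≤ B'.card → e T A' B' ≤ (p i + g) * (A'.card * B'.card)) := by
  classical
  obtain ⟨q0, g0, lam0, lam1, r0, l0, hlam2, hK, hg1, hq⟩ := hp
  have r0' : (0:ℝ) < r := by exact_mod_cast r0
  have l0' : (0:ℝ) < l := by exact_mod_cast l0
  have hlam2pos : 0 < lam2 := by rw [hlam2]; positivity
  have hlam21 : lam2 ≤ 1 := by
    rw [hlam2, div_le_one (by positivity)]
    have h1 : lam ^ (K + 1) ≤ 1 := pow_le_one₀ lam0.le lam1
    have h2 : (1:ℝ) ≤ r := by exact_mod_cast r0
    linarith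
  have hlamK1 : lam ^ K ≤ 1 := pow_le_one₀ lam0.le lam1
  induction n with
  | zero =>
    intro c X hX hXc hN
    refine ⟨fun _ => X, fun _ => 0, subset_rfl, ?_, ?_, ?_, ?_, ?_⟩
    · have : (0:ℝ) ≤ X.card := Nat.cast_nonneg _
      nlinarith
    · intro i _ x hx
      exact (mem_blk.1 (hX hx)).1
    · intro i j h1 h2; omega
    · intro i _
      have h0 : 0 ≤ lam2 ^ K * l / 2 := by positivity
      calc lam ^ K * (lam2 ^ K * l / 2) ≤ 1 * (lam2 ^ K * l / 2) :=
            mul_le_mul_of_nonneg_right hlamK1 h0
        _ = lam2 ^ K * l / 2 := one_mul _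
        _ ≤ X.card := hXc
    · intro i hi; omega
  | succ n ih =>
    intro c X hX hXc hN
    have hXpos : (0:ℝ) < X.card := lt_of_lt_of_le (by positivity) hXc
    have hXne : X.Nonempty := by rw [← Finset.card_pos]; exact_mod_cast hXpos
    set J := blk N (c + l) (r * l) with hJdef
    have hNn : c + l + r * l ≤ N := by
      have h1 : c + (n + 1 + 1) * ((r + 1) * l) = c + (n + 1) * ((r + 1) * l) + l + r * l := by ring
      have h2 : 0 ≤ (n + 1) * ((r + 1) * l) := Nat.zero_le _
      omega
    have hJc : J.card = r * l := card_blk hNn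
    have hJne : J.Nonempty := by
      rw [← Finset.card_pos, hJc]; positivity
    have hd : q * (X.card * J.card) ≤ e T X J := by
      have h1 : ∀ v ∈ X, q * J.card ≤ ((out T J v).card : ℝ) := by
        intro v hv
        have h2 := deg_next hT hmed hNn v (hX hv)
        have h3 : ((r * l : ℕ) : ℝ) ≤ 2 * (out T J v).card + l := by exact_mod_cast h2
        push_cast at h3
        rw [hJc]
        push_cast
        nlinarith
      unfold e
      calc q * (X.card * J.card) = ∑ _v ∈ X, q * J.card := by
            rw [Finset.sum_const, nsmul_eq_mul]; ring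
        _ ≤ ∑ v ∈ X, ((out T J v).card : ℝ) := Finset.sum_le_sum h1
    obtain ⟨A, hAX, B, hBJ, p, hAne, hBne, hAc, hBc, hqp, hp1, he, hreg⟩ :=
      pair T X J hXne hJne lam0 lam1 hlam2pos hlam21 hK g0.le hd
    have hApos : (0:ℝ) < A.card := by exact_mod_cast hAne.card_pos
    have hBpos : (0:ℝ) < B.card := by exact_mod_cast hBne.card_pos
    have hlamA : lam * A.card ≤ A.card := by nlinarith
    -- cleaning
    have hlow := few_low_in T A B hAne (c := p + g) (κ := lam2 * B.card) (a := g) (b := g1 + g)
      (by linarith) (by positivity) (by nlinarith)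
      (fun B' hB' hB'c => hreg A subset_rfl B' hB' hlamA hB'c)
      (by rw [he]; apply le_of_eq; ring)
    set Lo := B.filter (fun y => ((inn T A y).card : ℝ) < (p + g - (g1 + g)) * A.card) with hLo
    set V' := B.filter (fun y => ¬ ((inn T A y).card : ℝ) < (p + g - (g1 + g)) * A.card) with hV'
    have hLoc : (Lo.card : ℝ) ≤ B.card / 2 := by
      have h1 : (Lo.card : ℝ) * (g1 + g) ≤ (g + lam2) * B.card := by
        calc (Lo.card : ℝ) * (g1 + g) ≤ g * B.card + lam2 * B.card := hlow
          _ = (g + lam2) * B.card := by ring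
      have h2 : g + lam2 ≤ (g1 + g) / 2 := by linarith
      have h3 : 0 < g1 + g := by nlinarith
      have h4 : (Lo.card : ℝ) * (g1 + g) ≤ (B.card / 2) * (g1 + g) := by nlinarith
      exact le_of_mul_le_mul_right h4 h3
    have hV'c : (B.card : ℝ) / 2 ≤ V'.card := by
      have h1 : Lo.card + V'.card = B.card := Finset.card_filter_add_card_filter_not _
      have h2 : (Lo.card : ℝ) + V'.card = B.card := by exact_mod_cast h1
      linarith
    -- pigeonhole
    obtain ⟨k, hk, hkc⟩ : ∃ k < r, (V'.card : ℝ) / r ≤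
        ((V' ∩ blk N (c + l + k * l) l).card : ℝ) := by
      by_contra hcon
      push Not at hcon
      have h1 : V'.card ≤ ∑ k ∈ Finset.range r, (V' ∩ blk N (c + l + k * l) l).card := by
        refine le_trans (Finset.card_le_card ?_) Finset.card_biUnion_le
        intro x hx
        have hxJ : x ∈ J := hBJ (Finset.filter_subset _ _ hx)
        rw [hJdef, mem_blk] at hxJ
        rw [Finset.mem_biUnion]
        refine ⟨((x : ℕ) - (c + l)) / l, ?_, ?_⟩
        · rw [Finset.mem_range, Nat.div_lt_iff_lt_mul l0]
          omega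
        · rw [Finset.mem_inter, mem_blk]
          refine ⟨hx, ?_⟩
          have h2 := Nat.div_add_mod ((x : ℕ) - (c + l)) l
          have h3 := Nat.mod_lt ((x : ℕ) - (c + l)) l0
          rw [mul_comm] at h2
          omega
      have h2 : (V'.card : ℝ) ≤ ∑ k ∈ Finset.range r,
          ((V' ∩ blk N (c + l + k * l) l).card : ℝ) := by exact_mod_cast h1
      have h3 : ∑ k ∈ Finset.range r, ((V' ∩ blk N (c + l + k * l) l).card : ℝ)
          < ∑ _k ∈ Finset.range r, (V'.card : ℝ) / r := by
        apply Finset.sum_lt_sum_of_nonempty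
        · exact ⟨0, Finset.mem_range.2 r0⟩
        · intro k hk
          exact hcon k (Finset.mem_range.1 hk)
      rw [Finset.sum_const, nsmul_eq_mul, Finset.card_range] at h3
      have h4 : (r : ℝ) * ((V'.card : ℝ) / r) = V'.card := by field_simp
      linarith
    set c' := c + l + k * l with hc'
    set X' := V' ∩ blk N c' l with hX'
    have hX'B : (B.card : ℝ) / (2 * r) ≤ X'.card := by
      refine le_trans ?_ hkc
      rw [div_le_div_iff₀ (by positivity) r0']
      nlinarith
    have hX'c : lam2 ^ K * l / 2 ≤ (X'.card : ℝ) := by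
      refine le_trans ?_ hX'B
      rw [hJc] at hBc
      push_cast at hBc
      rw [div_le_div_iff₀ (by norm_num) (by positivity)]
      nlinarith
    have hkl : k * l + l ≤ r * l := by
      have : k + 1 ≤ r := hk
      calc k * l + l = (k + 1) * l := by ring
        _ ≤ r * l := Nat.mul_le_mul_right _ this
    obtain ⟨W', p', hW'0, hW'0c, hW'c, hW'd, hW's, hW'p⟩ := ih c' X'
      (Finset.inter_subset_right) hX'c (by
        have h1 : c + (n + 1 + 1) * ((r + 1) * l) = c + (n + 1) * ((r + 1) * l) + l + r * l := by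
          ring
        omega)
    refine ⟨fun i => Nat.casesOn i A W', fun i => Nat.casesOn i p p', hAX, hAc, ?_, ?_, ?_, ?_⟩
    · intro i hi x hx
      rcases i with _ | i
      · exact (mem_blk.1 (hX (hAX hx))).1
      · have := hW'c i (by omega) x hx
        omega
    · intro i j hij hjn
      rcases j with _ | j
      · omega
      · rcases i with _ | i
        · rw [Finset.disjoint_left]
          intro x hx hx'
          have h1 := (mem_blk.1 (hX (hAX hx))).2
          have h2 := hW'c j (by omega) x hx'
          omega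
        · exact hW'd i j (by omega) (by omega)
    · intro i hi
      rcases i with _ | i
      · refine le_trans ?_ hAc
        exact mul_le_mul_of_nonneg_left hXc (by positivity)
      · exact hW's i (by omega)
    · intro i hi
      rcases i with _ | i
      · refine ⟨hqp, hp1, ?_, ?_⟩
        · intro y hy
          have h1 : y ∈ V' := Finset.inter_subset_left (hW'0 hy)
          rw [hV', Finset.mem_filter] at h1
          have h2 := not_lt.1 h1.2
          have h3 : p + g - (g1 + g) = p - g1 := by ring
          rw [h3] at h2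
          exact h2
        · intro A' hA' B' hB' hA'c hB'c
          apply hreg A' hA' B' _ hA'c
          · refine le_trans ?_ hB'c
            show lam2 * B.card ≤ lam * ((W' 0).card : ℝ)
            calc lam2 * B.card = lam * (lam ^ K * (B.card / (2 * r))) := by
                  rw [hlam2]; field_simp; ring
              _ ≤ lam * (lam ^ K * X'.card) := by
                  apply mul_le_mul_of_nonneg_left _ lam0.le
                  apply mul_le_mul_of_nonneg_left hX'B (by positivity)
              _ ≤ lam * ((W' 0).card : ℝ) := mul_le_mul_of_nonneg_left hW'0c lam0.le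
          · intro y hy
            have h1 : y ∈ V' := Finset.inter_subset_left (hW'0 (hB' hy))
            exact Finset.filter_subset _ _ h1
      · exact hW'p i (by omega)

end Pool.Agent.H97.QD
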