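import Pool.Agent.H97.QD.Count

/-!
# Existence of a good sequence of tuples
-/

namespace Pool.Agent.H97.QD

open Finset

variable {V : Type}

open Classical in
lemma exists_seq {T : V → V → Prop} {W : ℕ → Finset V} {p : ℕ → ℝ}
    {q τ lam w0 ρ η β κ δ μ : ℝ} {t d m M : ℕ} (hM : M = m + 1) (hd : d ≤ 2 * m)
    (h : CChain T (2 * M + 2) W p q τ lam w0) (hw0 : 0 < w0)
    (hβ : 0 < β) (hβ1 : β ≤ 1) (hβq : β ≤ q - ρ) (hτ : 0 ≤ τ) (hρ : 0 < ρ)
    (hlam : 0 < lam) (hlamβ : lam ≤ β ^ t * β ^ t) (hη0 : η < 1)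
    (hη : 2 * (2 * τ + lam) ≤ (η - 2 * lam) * (ρ + τ))
    (hκ0 : 0 < κ) (hκ1 : κ ≤ 1) (hκ : κ * (q + τ) ≤ q - ρ) (hμ : 0 ≤ μ)
    (hfin : 2 ^ d * μ ^ t ≤ δ * ((κ * β) ^ t) ^ d * ((1 - η) ^ t) ^ (M + 1)) (hδ : 0 ≤ δ) :
    ∃ xs : ℕ → Fin t → V, (∀ i, i ≤ m → β ^ t * β ^ t * w0 ≤ ((Us T W xs i).card : ℝ)) ∧
      ∀ y : Finset (Fin d), Odd y.card → (Gy T W xs μ y : ℝ) ≤
        δ * ∏ a : Fin d, ((if a ∈ y then Us T W xs (y.card / 2)
          else Us T W xs (y.card / 2 + 1)).card : ℝ) := by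
  set Ω : ℕ → Finset (Fin t → V) := fun j => Fintype.piFinset (fun _ : Fin t => W (2 * j + 1))
    with hΩ
  set P : ℕ → (Fin t → V) → Prop := fun j x =>
    ((innT T (W (2 * j)) x).card : ℝ) ≤ (p (2 * j) + τ) ^ t * (W (2 * j)).card ∧
    (p (2 * j + 1) - ρ) ^ t * (W (2 * j + 2)).card ≤ ((outT T (W (2 * j + 2)) x).card : ℝ) ∧
    ((outT T (W (2 * j + 2)) x).card : ℝ) ≤ (p (2 * j + 1) + τ) ^ t * (W (2 * j + 2)).card with hP
  set R : ℕ → (Fin t → V) → (Fin t → V) → Prop := fun j x x' =>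
    (p (2 * j + 2) - ρ) ^ t * (outT T (W (2 * j + 2)) x).card ≤
      ((innT T (outT T (W (2 * j + 2)) x) x').card : ℝ) with hR
  set c : ℕ → ℝ := fun j => ((1 - η) * (W (2 * j + 1)).card) ^ t with hc
  have hWpos : ∀ i, i ≤ 2 * M + 2 → (0:ℝ) < (W i).card :=
    fun i hi => lt_of_lt_of_le hw0 (h.size i hi)
  have hWne : ∀ i, i ≤ 2 * M + 2 → (W i).Nonempty := by
    intro i hi
    rw [← Finset.card_pos]; exact_mod_cast hWpos i hi
  have hβt : (0:ℝ) < β ^ t := pow_pos hβ t
  have hβt1 : β ^ t ≤ 1 := pow_le_one₀ hβ.le hβ1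
  have hlamβ' : lam ≤ β ^ t := le_trans hlamβ (by nlinarith)
  have hη1 : 0 < 1 - η := by linarith
  -- one step
  have hstep : ∀ j, j ≤ M → ∀ S : Finset V, S ⊆ W (2 * j) → lam * (W (2 * j)).card ≤ β ^ t * S.card →
      c j ≤ (((Ω j).filter (fun x => P j x ∧
        (p (2 * j) - ρ) ^ t * S.card ≤ ((innT T S x).card : ℝ))).card : ℝ) := by
    intro j hj S hS hSc
    have h1 := good_tuples (h.link (i := 2 * j) (by omega)) (h.link (i := 2 * j + 1) (by omega))
      hβ hβ1 (le_trans hβq (by have := h.pq (2 * j) (by omega); linarith))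
      (le_trans hβq (by have := h.pq (2 * j + 1) (by omega); linarith)) hτ hρ hlam hη0.le hη
      hS (hWne _ (by omega)) (hWne _ (by omega)) hSc hlamβ' t le_rfl
    refine le_trans h1 (Nat.cast_le.2 (Finset.card_le_card ?_))
    intro x hx
    rw [Finset.mem_filter] at hx ⊢
    obtain ⟨hx1, g1, g2, g3, g4⟩ := hx
    exact ⟨hx1, ⟨g2, g3, g4⟩, g1⟩
  have h0 : c 0 ≤ (((Ω 0).filter (fun x => P 0 x)).card : ℝ) := by
    have h1 := hstep 0 (by omega) (W (2 * 0)) subset_rfl
      (mul_le_mul_of_nonneg_right hlamβ' (Nat.cast_nonneg _))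
    refine le_trans h1 (Nat.cast_le.2 (Finset.card_le_card ?_))
    intro x hx
    rw [Finset.mem_filter] at hx ⊢
    exact ⟨hx.1, hx.2.1⟩
  have hs : ∀ j, j < M → ∀ x ∈ Ω j, P j x →
      c (j + 1) ≤ (((Ω (j + 1)).filter (fun x' => P (j + 1) x' ∧ R j x x')).card : ℝ) := by
    intro j hj x _ hPx
    have h1 := hstep (j + 1) (by omega) (outT T (W (2 * j + 2)) x) (outT_subset _ _ _) (by
      have h2 := hPx.2.1
      have h3 : β ^ t ≤ (p (2 * j + 1) - ρ) ^ t := pow_le_pow_left₀ hβ.le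
        (le_trans hβq (by have := h.pq (2 * j + 1) (by omega); linarith)) t
      have h4 := hWpos (2 * j + 2) (by omega)
      have e1 : 2 * (j + 1) = 2 * j + 2 := by ring
      rw [e1]
      calc lam * (W (2 * j + 2)).card ≤ β ^ t * β ^ t * (W (2 * j + 2)).card :=
            mul_le_mul_of_nonneg_right hlamβ h4.le
        _ = β ^ t * (β ^ t * (W (2 * j + 2)).card) := by ring
        _ ≤ β ^ t * ((p (2 * j + 1) - ρ) ^ t * (W (2 * j + 2)).card) := by
            apply mul_le_mul_of_nonneg_left _ hβt.le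
            exact mul_le_mul_of_nonneg_right h3 h4.le
        _ ≤ β ^ t * (outT T (W (2 * j + 2)) x).card := mul_le_mul_of_nonneg_left h2 hβt.le)
    exact h1
  have hseq0 := seq_count Ω P R c (fun j => by
    simp only [hc]
    exact pow_nonneg (mul_nonneg hη1.le (Nat.cast_nonneg _)) t) (by convert h0) M
    (fun j hj x hx hPx => by convert hs j hj x hx hPx)
  set E := (Fintype.piFinset (fun j : Fin (M + 1) => Ω j)).filter
        (fun x => (∀ j : Fin (M + 1), P j (x j)) ∧
          ∀ j : Fin M, R j (x j.castSucc) (x j.succ)) with hE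
  have hseq : ∏ j ∈ Finset.range (M + 1), c j ≤ (E.card : ℝ) := by convert hseq0
  have hΩcard : (((Fintype.piFinset (fun j : Fin (M + 1) => Ω j)).card : ℕ) : ℝ) =
      ∏ j ∈ Finset.range (M + 1), (((W (2 * j + 1)).card : ℝ)) ^ t := by
    rw [Fintype.card_piFinset, Finset.prod_range]
    push_cast
    apply Finset.prod_congr rfl
    intro j _
    rw [hΩ]
    simp only [Fintype.card_piFinset, Finset.prod_const, Finset.card_univ, Fintype.card_fin]
    rw [Nat.cast_pow]
  have hprod : ∏ j ∈ Finset.range (M + 1), c j = ((1 - η) ^ t) ^ (M + 1) *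
      (Fintype.piFinset (fun j : Fin (M + 1) => Ω j)).card := by
    rw [hΩcard]
    simp only [hc, mul_pow]
    rw [Finset.prod_mul_distrib, Finset.prod_const, Finset.card_range]
  rw [hprod] at hseq
  have hΩpos : (0:ℝ) < (Fintype.piFinset (fun j : Fin (M + 1) => Ω j)).card := by
    rw [hΩcard]
    apply Finset.prod_pos
    intro j hj
    rw [Finset.mem_range] at hj
    exact pow_pos (hWpos _ (by omega)) t
  have hηM : 0 < ((1 - η) ^ t) ^ (M + 1) := by positivity
  have hEpos : (0:ℝ) < E.card := lt_of_lt_of_le (mul_pos hηM hΩpos) hseq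
  have hEne : E.Nonempty := by rw [← Finset.card_pos]; exact_mod_cast hEpos
  -- weights
  set Xa : Finset (Fin d) → ℝ := fun y => (p (2 * (y.card / 2) + 1) + τ) ^ t *
    (W (2 * (y.card / 2) + 2)).card with hXa
  set Xb : Finset (Fin d) → ℝ := fun y => (p (2 * (y.card / 2) + 4) + τ) ^ t *
    (W (2 * (y.card / 2) + 4)).card with hXb
  set D : Finset (Fin d) → ℝ := fun y => ∏ a : Fin d, if a ∈ y then Xa y else Xb y with hD
  set O : Finset (Finset (Fin d)) := Finset.univ.filter (fun y => Odd y.card) with hO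
  have hyfacts : ∀ y ∈ O, y.card = 2 * (y.card / 2) + 1 ∧ y.card / 2 + 2 ≤ M := by
    intro y hy
    rw [hO, Finset.mem_filter] at hy
    obtain ⟨k, hk⟩ := hy.2
    have hle : y.card ≤ d := by
      have := Finset.card_le_univ y
      simpa using this
    constructor
    · omega
    · omega
  have hppos : ∀ i, i < 2 * M + 2 → 0 < p i + τ := by
    intro i hi
    have := h.pq i hi
    linarith
  have hXapos : ∀ y ∈ O, 0 < Xa y := by
    intro y hy
    obtain ⟨h1, h2⟩ := hyfacts y hy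
    exact mul_pos (pow_pos (hppos _ (by omega)) t) (hWpos _ (by omega))
  have hXbpos : ∀ y ∈ O, 0 < Xb y := by
    intro y hy
    obtain ⟨h1, h2⟩ := hyfacts y hy
    exact mul_pos (pow_pos (hppos _ (by omega)) t) (hWpos _ (by omega))
  have hDpos : ∀ y ∈ O, 0 < D y := by
    intro y hy
    apply Finset.prod_pos
    intro a _
    split_ifs
    · exact hXapos y hy
    · exact hXbpos y hy
  have hEfacts : ∀ x ∈ E, (∀ j, j ≤ M → P j (toSeq x j)) ∧
      ∀ j, j < M → R j (toSeq x j) (toSeq x (j + 1)) := by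
    intro x hx
    rw [hE, Finset.mem_filter] at hx
    obtain ⟨_, h1, h2⟩ := hx
    constructor
    · intro j hj
      rw [toSeq_of_le x hj]
      exact h1 ⟨j, by omega⟩
    · intro j hj
      rw [toSeq_of_le x hj.le, toSeq_of_le x (by omega : j + 1 ≤ M)]
      exact h2 ⟨j, hj⟩
  have hsumy : ∀ y ∈ O, ∑ x ∈ E, (Gy T W (toSeq x) μ y : ℝ) / D y ≤
      μ ^ t * (Fintype.piFinset (fun j : Fin (M + 1) => Ω j)).card := by
    intro y hy
    obtain ⟨h1, h2⟩ := hyfacts y hy
    have h3 := sum_bad (T := T) (W := W) (t := t) (M := M) hμ (Xa := Xa y) (Xb := Xb y) y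
      (y.card / 2) h1 h2 (by
        have := hWpos (2 * (y.card / 2) + 3) (by omega)
        exact_mod_cast this) (hXapos y hy).le (hXbpos y hy).le
    have h4 : ∑ x ∈ E, (Gy T W (toSeq x) μ y : ℝ) ≤ μ ^ t * D y *
        (Fintype.piFinset (fun j : Fin (M + 1) => Ω j)).card := by
      refine le_trans ?_ h3
      apply Finset.sum_le_sum_of_subset_of_nonneg
      · intro x hx
        have h5 := hEfacts x hx
        rw [Finset.mem_filter]
        refine ⟨(Finset.mem_filter.1 hx).1, ?_, ?_⟩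
        · exact (h5.1 (y.card / 2) (by omega)).2.2
        · have h6 := (h5.1 (y.card / 2 + 2) h2).1
          have e1 : 2 * (y.card / 2 + 2) = 2 * (y.card / 2) + 4 := by ring
          rw [e1] at h6
          exact h6
      · intro x _ _
        exact Nat.cast_nonneg _
    rw [← Finset.sum_div, div_le_iff₀ (hDpos y hy)]
    calc ∑ x ∈ E, (Gy T W (toSeq x) μ y : ℝ) ≤ _ := h4
      _ = _ := by ring
  have hOcard : (O.card : ℝ) ≤ 2 ^ d := by
    have h1 : O.card ≤ (Finset.univ : Finset (Finset (Fin d))).card :=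
      Finset.card_le_card (Finset.filter_subset _ _)
    rw [Finset.card_univ, Fintype.card_finset, Fintype.card_fin] at h1
    exact_mod_cast h1
  have htotal : ∑ x ∈ E, ∑ y ∈ O, (Gy T W (toSeq x) μ y : ℝ) / D y ≤
      ∑ _x ∈ E, (2 ^ d * μ ^ t * (Fintype.piFinset (fun j : Fin (M + 1) => Ω j)).card) / E.card := by
    rw [Finset.sum_comm, Finset.sum_const, nsmul_eq_mul, mul_div_cancel₀ _ hEpos.ne']
    refine le_trans (Finset.sum_le_sum hsumy) ?_
    rw [Finset.sum_const, nsmul_eq_mul]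
    have h1 : 0 ≤ μ ^ t * ((Fintype.piFinset (fun j : Fin (M + 1) => Ω j)).card : ℝ) :=
      mul_nonneg (pow_nonneg hμ t) (Nat.cast_nonneg _)
    nlinarith [mul_le_mul_of_nonneg_right hOcard h1]
  obtain ⟨x, hxE, hx⟩ := Finset.exists_le_of_sum_le hEne htotal
  obtain ⟨hxP, hxR⟩ := hEfacts x hxE
  have hUs : ∀ i, i < M → (p (2 * i + 2) - ρ) ^ t * ((p (2 * i + 1) - ρ) ^ t *
      (W (2 * i + 2)).card) ≤ ((Us T W (toSeq x) i).card : ℝ) := by
    intro i hi
    have h1 := hxR i hi
    have h2 := (hxP i hi.le).2.1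
    have h3 : 0 ≤ (p (2 * i + 2) - ρ) ^ t := pow_nonneg (by
      have := h.pq (2 * i + 2) (by omega)
      linarith) t
    exact le_trans (mul_le_mul_of_nonneg_left h2 h3) h1
  have hpβ : ∀ i, i < 2 * M + 2 → β ^ t ≤ (p i - ρ) ^ t := by
    intro i hi
    apply pow_le_pow_left₀ hβ.le
    have := h.pq i hi
    linarith
  have hpκ : ∀ i, i < 2 * M + 2 → κ ^ t * (p i + τ) ^ t ≤ (p i - ρ) ^ t := by
    intro i hi
    rw [← mul_pow]
    apply pow_le_pow_left₀ (mul_nonneg hκ0.le (hppos i hi).le)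
    have := h.pq i hi
    nlinarith
  refine ⟨toSeq x, ?_, ?_⟩
  · intro i hi
    refine le_trans ?_ (hUs i (by omega))
    have h1 := hpβ (2 * i + 2) (by omega)
    have h2 := hpβ (2 * i + 1) (by omega)
    have h3 := h.size (2 * i + 2) (by omega)
    calc β ^ t * β ^ t * w0 = β ^ t * (β ^ t * w0) := by ring
      _ ≤ (p (2 * i + 2) - ρ) ^ t * ((p (2 * i + 1) - ρ) ^ t * (W (2 * i + 2)).card) := by
        apply mul_le_mul h1 _ (by positivity) (le_trans hβt.le h1)
        exact mul_le_mul h2 h3 hw0.le (le_trans hβt.le h2)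
  · intro y hy
    have hyO : y ∈ O := by rw [hO, Finset.mem_filter]; exact ⟨Finset.mem_univ _, hy⟩
    obtain ⟨hy1, hy2⟩ := hyfacts y hyO
    have h1 : (Gy T W (toSeq x) μ y : ℝ) / D y ≤
        ∑ y ∈ O, (Gy T W (toSeq x) μ y : ℝ) / D y := by
      apply Finset.single_le_sum (f := fun y => (Gy T W (toSeq x) μ y : ℝ) / D y) _ hyO
      intro z hz
      exact div_nonneg (Nat.cast_nonneg _) (hDpos z hz).le
    have h2 : (2 ^ d * μ ^ t * ((Fintype.piFinset (fun j : Fin (M + 1) => Ω j)).card : ℝ)) / E.card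
        ≤ δ * ((κ * β) ^ t) ^ d := by
      rw [div_le_iff₀ hEpos]
      have hA : 0 ≤ δ * ((κ * β) ^ t) ^ d := by positivity
      calc 2 ^ d * μ ^ t * ((Fintype.piFinset (fun j : Fin (M + 1) => Ω j)).card : ℝ)
          ≤ (δ * ((κ * β) ^ t) ^ d * ((1 - η) ^ t) ^ (M + 1)) *
            (Fintype.piFinset (fun j : Fin (M + 1) => Ω j)).card :=
            mul_le_mul_of_nonneg_right hfin hΩpos.le
        _ = δ * ((κ * β) ^ t) ^ d * (((1 - η) ^ t) ^ (M + 1) *
            (Fintype.piFinset (fun j : Fin (M + 1) => Ω j)).card) := by ring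
        _ ≤ δ * ((κ * β) ^ t) ^ d * E.card := mul_le_mul_of_nonneg_left hseq hA
    have h3 : (Gy T W (toSeq x) μ y : ℝ) ≤ δ * ((κ * β) ^ t) ^ d * D y := by
      have h4 := (h1.trans hx).trans h2
      rwa [div_le_iff₀ (hDpos y hyO)] at h4
    refine le_trans h3 ?_
    rw [mul_assoc]
    apply mul_le_mul_of_nonneg_left _ hδ
    have e1 : ((κ * β) ^ t) ^ d * D y = ∏ a : Fin d, ((κ * β) ^ t * if a ∈ y then Xa y else Xb y) := by
      rw [Finset.prod_mul_distrib, Finset.prod_const, Finset.card_univ, Fintype.card_fin]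
    rw [e1]
    apply Finset.prod_le_prod
    · intro a _
      apply mul_nonneg (by positivity)
      split_ifs
      · exact (hXapos y hyO).le
      · exact (hXbpos y hyO).le
    · intro a _
      by_cases ha : a ∈ y
      · rw [if_pos ha, if_pos ha]
        refine le_trans ?_ (hUs (y.card / 2) (by omega))
        have h4 := hpβ (2 * (y.card / 2) + 2) (by omega)
        have h5 := hpκ (2 * (y.card / 2) + 1) (by omega)
        have h6 := hWpos (2 * (y.card / 2) + 2) (by omega)
        simp only [hXa, mul_pow]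
        calc κ ^ t * β ^ t * ((p (2 * (y.card / 2) + 1) + τ) ^ t *
              (W (2 * (y.card / 2) + 2)).card)
            = β ^ t * ((κ ^ t * (p (2 * (y.card / 2) + 1) + τ) ^ t) *
              (W (2 * (y.card / 2) + 2)).card) := by ring
          _ ≤ β ^ t * ((p (2 * (y.card / 2) + 1) - ρ) ^ t * (W (2 * (y.card / 2) + 2)).card) := by
              apply mul_le_mul_of_nonneg_left _ hβt.le
              exact mul_le_mul_of_nonneg_right h5 h6.le
          _ ≤ _ := by
              apply mul_le_mul_of_nonneg_right h4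
              exact mul_nonneg (le_trans hβt.le (hpβ _ (by omega))) h6.le
      · rw [if_neg ha, if_neg ha]
        refine le_trans ?_ (hUs (y.card / 2 + 1) (by omega))
        have e2 : 2 * (y.card / 2 + 1) + 2 = 2 * (y.card / 2) + 4 := by ring
        have e3 : 2 * (y.card / 2 + 1) + 1 = 2 * (y.card / 2) + 3 := by ring
        rw [e2, e3]
        have h4 := hpβ (2 * (y.card / 2) + 3) (by omega)
        have h5 := hpκ (2 * (y.card / 2) + 4) (by omega)
        have h6 := hWpos (2 * (y.card / 2) + 4) (by omega)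
        simp only [hXb, mul_pow]
        calc κ ^ t * β ^ t * ((p (2 * (y.card / 2) + 4) + τ) ^ t *
              (W (2 * (y.card / 2) + 4)).card)
            = (κ ^ t * (p (2 * (y.card / 2) + 4) + τ) ^ t) * (β ^ t *
              (W (2 * (y.card / 2) + 4)).card) := by ring
          _ ≤ (p (2 * (y.card / 2) + 4) - ρ) ^ t * (β ^ t * (W (2 * (y.card / 2) + 4)).card) := by
              apply mul_le_mul_of_nonneg_right h5
              exact mul_nonneg hβt.le h6.le
          _ ≤ _ := by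
              apply mul_le_mul_of_nonneg_left
              · exact mul_le_mul_of_nonneg_right h4 h6.le
              · exact le_trans hβt.le (hpβ _ (by omega))

end Pool.Agent.H97.QD
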