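import Pool.Agent.H97.QD.Chain

/-!
# Two-sided cleaning of the chain
-/

namespace Pool.Agent.H97.QD

open Finset

variable {V : Type}

/-- A chain of pairs with minimum degree conditions on both sides and one-sided regularity. -/
structure CChain (T : V → V → Prop) (n : ℕ) (W : ℕ → Finset V) (p : ℕ → ℝ) (q τ lam w0 : ℝ) :
    Prop where
  disj : ∀ i j, i < j → j ≤ n → Disjoint (W i) (W j)
  size : ∀ i, i ≤ n → w0 ≤ ((W i).card : ℝ)
  pq : ∀ i, i < n → q ≤ p i
  p1 : ∀ i, i < n → p i ≤ 1
  hin : ∀ i, i < n → ∀ y ∈ W (i + 1), (p i - τ) * (W i).card ≤ (inn T (W i) y).card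
  hout : ∀ i, i < n → ∀ w ∈ W i, (p i - τ) * (W (i + 1)).card ≤ (out T (W (i + 1)) w).card
  reg : ∀ i, i < n → ∀ A' ⊆ W i, ∀ B' ⊆ W (i + 1), lam * (W i).card ≤ A'.card →
    lam * (W (i + 1)).card ≤ B'.card → e T A' B' ≤ (p i + τ) * (A'.card * B'.card)

lemma card_inn_sub (T : V → V → Prop) {A A' : Finset V} (hA : A' ⊆ A) (y : V) :
    ((inn T A y).card : ℝ) ≤ (inn T A' y).card + ((A.card : ℝ) - A'.card) := by
  classical
  have h1 : (inn T A y).card ≤ (inn T A' y).card + (A \ A').card := by
    rw [← Finset.card_union_of_disjoint]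
    · apply Finset.card_le_card
      intro x hx
      rw [mem_inn] at hx
      rw [Finset.mem_union, mem_inn, Finset.mem_sdiff]
      by_cases h : x ∈ A'
      · exact Or.inl ⟨h, hx.2⟩
      · exact Or.inr ⟨hx.1, h⟩
    · rw [Finset.disjoint_left]
      intro x hx hx'
      exact (Finset.mem_sdiff.1 hx').2 (mem_inn.1 hx).1
  have h2 : (A \ A').card = A.card - A'.card := Finset.card_sdiff_of_subset hA
  have h3 := Finset.card_le_card hA
  rw [h2] at h1
  have h4 : ((inn T A y).card : ℝ) ≤ (inn T A' y).card + ((A.card - A'.card : ℕ) : ℝ) := by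
    exact_mod_cast h1
  rwa [Nat.cast_sub h3] at h4

lemma card_out_sub (T : V → V → Prop) {A A' : Finset V} (hA : A' ⊆ A) (y : V) :
    ((out T A y).card : ℝ) ≤ (out T A' y).card + ((A.card : ℝ) - A'.card) := by
  have h := card_inn_sub (fun a b => T b a) hA y
  exact h

lemma clean {T : V → V → Prop} {n : ℕ} {W : ℕ → Finset V} {p : ℕ → ℝ}
    {q g g1 lam τ w0 : ℝ} (hw0 : 0 < w0) (hlam : 0 < lam) (hlam1 : lam ≤ 1) (hg : 0 < g)
    (hgg : g ≤ τ) (hτ1 : τ ≤ 1) (hτ : 0 < τ) (hτq : τ ≤ q) (hg1 : g1 ≤ τ / 2)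
    (hsum : g + g1 + lam ≤ τ ^ 2 / 4)
    (hd : ∀ i j, i < j → j ≤ n → Disjoint (W i) (W j))
    (hs : ∀ i, i ≤ n → w0 ≤ ((W i).card : ℝ))
    (hp : ∀ i, i < n → q ≤ p i ∧ p i ≤ 1 ∧
          (∀ y ∈ W (i + 1), (p i - g1) * (W i).card ≤ (inn T (W i) y).card) ∧
          (∀ A' ⊆ W i, ∀ B' ⊆ W (i + 1), lam * (W i).card ≤ A'.card →
            lam * (W (i + 1)).card ≤ B'.card → e T A' B' ≤ (p i + g) * (A'.card * B'.card))) :
    ∃ W' : ℕ → Finset V, CChain T n W' p q τ (2 * lam) (w0 / 2) := by
  classical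
  let W' : ℕ → Finset V := fun i => if i < n then
    (W i).filter (fun w => ¬ ((out T (W (i + 1)) w).card : ℝ) <
      (p i + g - (τ / 2 + g)) * (W (i + 1)).card) else W i
  have hsub : ∀ i, W' i ⊆ W i := by
    intro i
    simp only [W']
    split_ifs
    · exact Finset.filter_subset _ _
    · exact subset_rfl
  have hpos : ∀ i, i ≤ n → (0:ℝ) < (W i).card := fun i hi => lt_of_lt_of_le hw0 (hs i hi)
  have hne : ∀ i, i ≤ n → (W i).Nonempty := by
    intro i hi
    rw [← Finset.card_pos]; exact_mod_cast hpos i hi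
  have hloss : ∀ i, i ≤ n → ((W i).card : ℝ) - (W' i).card ≤ τ / 2 * (W i).card := by
    intro i hi
    by_cases hin : i < n
    · obtain ⟨hq, hp1, hA, hB⟩ := hp i hin
      have h1 := few_low_out T (W i) (W (i + 1)) (hne (i + 1) hin) (c := p i + g)
        (κ := lam * (W i).card) (a := g + g1) (b := τ / 2 + g) (by linarith)
        (mul_pos hlam (hpos i hi)).le (by linarith)
        (fun A' hA' hA'c => hB A' hA' _ subset_rfl hA'c (by
          have := hpos (i + 1) hin
          nlinarith))
        (by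
          rw [e_eq]
          calc (p i + g - (g + g1)) * (((W i).card : ℝ) * (W (i + 1)).card)
              = ∑ _y ∈ W (i + 1), (p i - g1) * (W i).card := by
                rw [Finset.sum_const, nsmul_eq_mul]; ring
            _ ≤ ∑ y ∈ W (i + 1), ((inn T (W i) y).card : ℝ) := Finset.sum_le_sum hA)
      have h2 : ((W i).filter (fun w => ((out T (W (i + 1)) w).card : ℝ) <
          (p i + g - (τ / 2 + g)) * (W (i + 1)).card)).card + (W' i).card = (W i).card := by
        simp only [W', if_pos hin]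
        exact Finset.card_filter_add_card_filter_not _
      set Lo := (W i).filter (fun w => ((out T (W (i + 1)) w).card : ℝ) <
          (p i + g - (τ / 2 + g)) * (W (i + 1)).card)
      have h3 : (Lo.card : ℝ) + (W' i).card = (W i).card := by exact_mod_cast h2
      have h4 : (Lo.card : ℝ) * (τ / 2) ≤ (τ / 2 * (W i).card) * (τ / 2) := by
        have h5 : (Lo.card : ℝ) * (τ / 2) ≤ (Lo.card : ℝ) * (τ / 2 + g) := by
          apply mul_le_mul_of_nonneg_left _ (Nat.cast_nonneg _)
          linarith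
        have h6 : (g + g1 + lam) * (W i).card ≤ τ ^ 2 / 4 * (W i).card :=
          mul_le_mul_of_nonneg_right hsum (hpos i hi).le
        nlinarith
      have h5 := le_of_mul_le_mul_right h4 (by linarith)
      linarith
    · simp only [W', if_neg hin, sub_self]
      have := hpos i hi
      positivity
  refine ⟨W', ?_, ?_, fun i hi => (hp i hi).1, fun i hi => (hp i hi).2.1, ?_, ?_, ?_⟩
  · intro i j hij hj
    exact Finset.disjoint_of_subset_left (hsub i)
      (Finset.disjoint_of_subset_right (hsub j) (hd i j hij hj))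
  · intro i hi
    have h1 := hloss i hi
    have h2 := hs i hi
    have h3 := hpos i hi
    nlinarith
  · intro i hi y hy
    obtain ⟨hq, hp1, hA, hB⟩ := hp i hi
    have h1 := hA y (hsub _ hy)
    have h2 := card_inn_sub T (hsub i) y
    have h3 := hloss i hi.le
    have h4 := hpos i hi.le
    have h5 : ((W' i).card : ℝ) ≤ (W i).card := by
      exact_mod_cast Finset.card_le_card (hsub i)
    have h6 : (p i - τ) * (W' i).card ≤ (p i - τ) * (W i).card :=
      mul_le_mul_of_nonneg_left h5 (by linarith)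
    nlinarith
  · intro i hi w hw
    obtain ⟨hq, hp1, hA, hB⟩ := hp i hi
    have h1 : (p i + g - (τ / 2 + g)) * (W (i + 1)).card ≤ ((out T (W (i + 1)) w).card : ℝ) := by
      simp only [W', if_pos hi, Finset.mem_filter] at hw
      exact not_lt.1 hw.2
    have h2 := card_out_sub T (hsub (i + 1)) w
    have h3 := hloss (i + 1) hi
    have h4 := hpos (i + 1) hi
    have h5 : ((W' (i + 1)).card : ℝ) ≤ (W (i + 1)).card := by
      exact_mod_cast Finset.card_le_card (hsub (i + 1))
    have h6 : (p i - τ) * (W' (i + 1)).card ≤ (p i - τ) * (W (i + 1)).card :=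
      mul_le_mul_of_nonneg_left h5 (by linarith)
    nlinarith
  · intro i hi A' hA' B' hB' hA'c hB'c
    obtain ⟨hq, hp1, hA, hB⟩ := hp i hi
    have h1 : ∀ k, k ≤ n → ((W k).card : ℝ) ≤ 2 * (W' k).card := by
      intro k hk
      have h1 := hloss k hk
      have h3 := hpos k hk
      nlinarith
    have h2 := hB A' (hA'.trans (hsub i)) B' (hB'.trans (hsub (i + 1)))
      (by
        have := h1 i hi.le
        nlinarith)
      (by
        have := h1 (i + 1) hi
        nlinarith)
    refine le_trans h2 ?_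
    apply mul_le_mul_of_nonneg_right _ (by positivity)
    linarith

end Pool.Agent.H97.QD
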