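import Pool.Agent.H97.QD.Final

/-!
# The core theorem for tournaments given by a median order
-/

namespace Pool.Agent.H97.QD

open Finset

lemma l_bound {K r t d : ℕ} (hdt : d ≤ t ^ 2) :
    (((d + 6) * (r + 1) : ℕ) : ℝ) ≤ 2 ^ ((5 * (K * (K + 2)) + K * (r + 1) + r + 9) * (t + 1)) := by
  have h1 : t < 2 ^ t := Nat.lt_two_pow_self
  have h3 : t ^ 2 ≤ (2 ^ t) ^ 2 := Nat.pow_le_pow_left h1.le 2
  have h4 : 1 ≤ (2 ^ t) ^ 2 := Nat.one_le_pow _ _ Nat.one_le_two_pow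
  have h5 : 2 ^ (2 * t + 3) = 8 * (2 ^ t) ^ 2 := by
    rw [← pow_mul]; ring
  have h6 : d + 6 ≤ 2 ^ (2 * t + 3) := by
    rw [h5]; omega
  have h7 : r + 1 ≤ 2 ^ (r + 1) := Nat.lt_two_pow_self.le
  have h8 : (d + 6) * (r + 1) ≤ 2 ^ (2 * t + 3) * 2 ^ (r + 1) := Nat.mul_le_mul h6 h7
  have h9 : 2 ^ (2 * t + 3) * 2 ^ (r + 1) ≤
      2 ^ ((5 * (K * (K + 2)) + K * (r + 1) + r + 9) * (t + 1)) := by
    rw [← pow_add]
    apply Nat.pow_le_pow_right (by norm_num)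
    nlinarith [Nat.zero_le (K * t), Nat.zero_le (K * K * t), Nat.zero_le (K * K),
          Nat.zero_le (K * r * t), Nat.zero_le (r * t)]
  exact_mod_cast h8.trans h9

/-- The choice of the small constants. -/
lemma exists_rho {ε : ℝ} (hε : 0 < ε) :
    ∃ ρ : ℝ, 0 < ρ ∧ ρ ≤ 1 / 100 ∧ (2:ℝ) ^ (-(ε / 4)) ≤ 1 - 9 * ρ := by
  have h1 : (2:ℝ) ^ (-(ε / 4)) < 1 := by
    apply Real.rpow_lt_one_of_one_lt_of_neg (by norm_num)
    linarith
  refine ⟨min (1 / 100) ((1 - (2:ℝ) ^ (-(ε / 4))) / 9), ?_, min_le_left _ _, ?_⟩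
  · apply lt_min (by norm_num)
    linarith
  · have := min_le_right (1 / 100 : ℝ) ((1 - (2:ℝ) ^ (-(ε / 4))) / 9)
    linarith

/-- The density computation. -/
lemma density {ρ τ g : ℝ} (hρ : 0 < ρ) (hρ1 : ρ ≤ 1 / 100) (hτ : τ = ρ ^ 2 / 16)
    (hg : g = τ ^ 2 / 32) :
    (1 / 2) * (1 - 9 * ρ) ≤
      ((1 / 2 - g - ρ) / (1 / 2 - g + τ) * (1 / 2 - g - ρ)) * (1 - ρ) := by
  have hτ0 : 0 < τ := by rw [hτ]; positivity
  have hτ1 : τ ≤ ρ / 1600 := by rw [hτ]; nlinarith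
  have hg0 : 0 < g := by rw [hg]; positivity
  have hg1 : g ≤ τ / 32 := by rw [hg]; nlinarith
  have hpos : 0 < 1 / 2 - g + τ := by linarith
  have e1 : ((1 / 2 - g - ρ) / (1 / 2 - g + τ) * (1 / 2 - g - ρ)) * (1 - ρ) =
      ((1 / 2 - g - ρ) * (1 / 2 - g - ρ)) * (1 - ρ) / (1 / 2 - g + τ) := by ring
  rw [e1, le_div_iff₀ hpos]
  have h1 : 1 / 4 - (101 / 100) * ρ ≤ (1 / 2 - g - ρ) * (1 / 2 - g - ρ) := by nlinarith
  have h2 : (1 / 4 - (101 / 100) * ρ) * (1 - ρ) ≤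
      ((1 / 2 - g - ρ) * (1 / 2 - g - ρ)) * (1 - ρ) :=
    mul_le_mul_of_nonneg_right h1 (by linarith)
  nlinarith

open Classical in
theorem core {ε : ℝ} (hε : 0 < ε) : ∃ d0 : ℕ, ∀ d : ℕ, d0 ≤ d → ∀ N : ℕ,
    (2:ℝ) ^ ((2 + ε) * d) ≤ N → ∀ T : Fin N → Fin N → Prop, IsTournament T → Med T →
    ∃ φ : Finset (Fin d) → Fin N, Function.Injective φ ∧
      ∀ (s : Finset (Fin d)) (a : Fin d), a ∉ s → T (φ s) (φ (insert a s)) := by
  obtain ⟨ρ, hρ0, hρ1, hρε⟩ := exists_rho hε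
  obtain ⟨τ, hτ⟩ : ∃ τ : ℝ, τ = ρ ^ 2 / 16 := ⟨_, rfl⟩
  obtain ⟨g, hg⟩ : ∃ g : ℝ, g = τ ^ 2 / 32 := ⟨_, rfl⟩
  have hdens := density hρ0 hρ1 hτ hg
  have hτ0 : 0 < τ := by rw [hτ]; positivity
  have hτ1 : τ ≤ ρ / 1600 := by rw [hτ]; nlinarith
  have hg0 : 0 < g := by rw [hg]; positivity
  have hg1 : g ≤ τ / 32 := by rw [hg]; nlinarith
  obtain ⟨q, hq⟩ : ∃ q : ℝ, q = 1 / 2 - g := ⟨_, rfl⟩
  obtain ⟨K, hK⟩ : ∃ K : ℕ, K = ⌈1 / g⌉₊ + 1 := ⟨_, rfl⟩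
  have hK0 : 0 < K := by omega
  have hKg : 1 < K * g := by
    have h1 : 1 / g ≤ (⌈1 / g⌉₊ : ℝ) := Nat.le_ceil _
    have h2 : (K : ℝ) = (⌈1 / g⌉₊ : ℝ) + 1 := by rw [hK]; push_cast; ring
    rw [div_le_iff₀ hg0] at h1
    rw [h2]
    nlinarith
  obtain ⟨C, hC⟩ : ∃ C : ℕ, C = 5 * (K * (K + 2)) + K * (K + 1) + K + 9 := ⟨_, rfl⟩
  obtain ⟨d0, hd0⟩ := eventually_conds hε (c0 := g / 2) (by positivity) C
  refine ⟨d0, fun d hd N hN T hT hmed => ?_⟩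
  obtain ⟨hd6, hc1, hc2, hc3, hc4⟩ := hd0 d hd
  -- the number of samples
  obtain ⟨t, ht⟩ : ∃ t : ℕ, t = ⌈Real.sqrt d⌉₊ := ⟨_, rfl⟩
  have hdpos : (0:ℝ) < d := by
    have : 0 < d := by omega
    exact_mod_cast this
  have hsq0 : 0 ≤ Real.sqrt d := Real.sqrt_nonneg _
  have ht1 : Real.sqrt d ≤ t := by rw [ht]; exact Nat.le_ceil _
  have ht2 : (t : ℝ) < Real.sqrt d + 1 := by rw [ht]; exact Nat.ceil_lt_add_one hsq0
  have hdt : d ≤ t ^ 2 := by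
    have h1 : (d : ℝ) ≤ (t : ℝ) ^ 2 := by
      have := Real.sq_sqrt hdpos.le
      nlinarith
    exact_mod_cast h1
  -- the sizes
  have hCt : (2:ℝ) ^ (C * (t + 1)) ≤ (2:ℝ) ^ (ε / 4 * d) := by
    rw [← Real.rpow_natCast]
    apply Real.rpow_le_rpow_of_exponent_le (by norm_num)
    push_cast
    have h1 : (C : ℝ) * (t + 1) ≤ C * (Real.sqrt d + 2) := by
      apply mul_le_mul_of_nonneg_left _ (Nat.cast_nonneg _)
      linarith
    linarith
  have hDN : (((d + 6) * (K + 1) : ℕ) : ℝ) ≤ N := by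
    have h1 := l_bound (K := K) (r := K) hdt
    rw [← hC] at h1
    refine h1.trans (hCt.trans (le_trans ?_ hN))
    apply Real.rpow_le_rpow_of_exponent_le (by norm_num)
    nlinarith
  have hDN' : (d + 6) * (K + 1) ≤ N := by exact_mod_cast hDN
  obtain ⟨D, hD⟩ : ∃ D : ℕ, D = (d + 6) * (K + 1) := ⟨_, rfl⟩
  have hD0 : 0 < D := by rw [hD]; positivity
  obtain ⟨l, hl⟩ : ∃ l : ℕ, l = N / D := ⟨_, rfl⟩
  have hl0 : 0 < l := by
    rw [hl]
    exact Nat.div_pos (by rw [hD]; exact hDN') hD0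
  have hlN : D * l ≤ N := by rw [hl]; exact Nat.mul_div_le N D
  have hNl : N ≤ 2 * D * l := by
    have h1 : N < D * (l + 1) := by
      rw [hl]
      have h2 := Nat.div_add_mod N D
      have h3 := Nat.mod_lt N hD0
      nlinarith
    nlinarith
  obtain ⟨lam0, hlam0⟩ : ∃ lam0 : ℝ, lam0 = ((2:ℝ) ^ (4 * t + 1))⁻¹ := ⟨_, rfl⟩
  obtain ⟨lam2, hlam2⟩ : ∃ lam2 : ℝ, lam2 = lam0 ^ (K + 1) / (2 * K) := ⟨_, rfl⟩
  have hlampos : 0 < lam0 := by rw [hlam0]; positivity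
  have htpos : (1:ℝ) ≤ t := by
    have h1 : (1:ℝ) ≤ Real.sqrt d := by
      rw [Real.one_le_sqrt]
      have : 1 ≤ d := by omega
      exact_mod_cast this
    linarith
  have hlamg : lam0 ≤ g / 2 := by
    rw [hlam0]
    have h1 : (t : ℝ) ≤ 2 ^ (4 * t + 1) := by
      have h2 : t < 2 ^ t := Nat.lt_two_pow_self
      have h3 : 2 ^ t ≤ 2 ^ (4 * t + 1) := Nat.pow_le_pow_right (by norm_num) (by omega)
      exact_mod_cast h2.le.trans h3
    rw [inv_le_comm₀ (by positivity) (by positivity)]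
    refine le_trans ?_ h1
    rw [inv_le_iff_one_le_mul₀ (by positivity)]
    nlinarith
  have hlam1 : lam0 ≤ 1 := by linarith
  have hKr : (1:ℝ) ≤ K := by exact_mod_cast hK0
  have hlam2le : lam2 ≤ lam0 / 2 := by
    rw [hlam2, div_le_div_iff₀ (by positivity) (by norm_num)]
    have h1 : lam0 ^ (K + 1) ≤ lam0 := by
      calc lam0 ^ (K + 1) ≤ lam0 ^ 1 := pow_le_pow_of_le_one hlampos.le hlam1 (by omega)
        _ = lam0 := pow_one _
    nlinarith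
  have hpar : Par q g (2 * g) lam0 lam2 K K l := by
    refine ⟨by rw [hq]; linarith, hg0, hlampos, hlam1, hK0, hl0, hlam2, ?_, ?_, ?_⟩
    · rw [hq]; linarith
    · linarith
    · rw [hq]; nlinarith
  obtain ⟨m, hm⟩ : ∃ m : ℕ, m = (d + 1) / 2 := ⟨_, rfl⟩
  have hlN' : 0 + (2 * (m + 1) + 2 + 1) * ((K + 1) * l) ≤ N := by
    have h1 : 2 * (m + 1) + 2 + 1 ≤ d + 6 := by omega
    calc 0 + (2 * (m + 1) + 2 + 1) * ((K + 1) * l) ≤ (d + 6) * ((K + 1) * l) := by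
          rw [zero_add]; exact Nat.mul_le_mul_right _ h1
      _ = D * l := by rw [hD]; ring
      _ ≤ N := hlN
  have hX : lam2 ^ K * l / 2 ≤ ((blk N 0 l).card : ℝ) := by
    have h1 : (blk N 0 l).card = l := card_blk (by
      have : l ≤ D * l := Nat.le_mul_of_pos_left l hD0
      omega)
    rw [h1]
    have h2 : lam2 ^ K ≤ 1 := by
      apply pow_le_one₀
      · rw [hlam2]; positivity
      · linarith
    have h3 : (0:ℝ) ≤ l := Nat.cast_nonneg _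
    nlinarith
  obtain ⟨W, p, hW0, hW0c, hWc, hWd, hWs, hWp⟩ := chain_exists hT hmed hpar (2 * (m + 1) + 2) 0
    (blk N 0 l) subset_rfl hX hlN'
  have hlam2pos : 0 < lam2 := by rw [hlam2]; positivity
  have hlpos : (0:ℝ) < l := by exact_mod_cast hl0
  obtain ⟨W', hW'⟩ := clean (τ := τ) (w0 := lam0 ^ K * (lam2 ^ K * l / 2)) (by positivity) hlampos
    hlam1 hg0 (by linarith) (by linarith) hτ0 (by rw [hq]; linarith) (by linarith)
    (by rw [hg] at hlamg ⊢; nlinarith) hWd hWs hWp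
  obtain ⟨w, hw⟩ : ∃ w : ℝ, w = lam0 ^ K * (lam2 ^ K * l / 2) / 2 := ⟨_, rfl⟩
  have hwN : (N : ℝ) ≤ w * 2 ^ (C * (t + 1)) := by
    have h1 := size_bound (K := K) (r := K) (t := t) (d := d) (l := l) (N := N) hK0 hl0 hdt
      (by rw [← hD]; exact hNl)
    rw [← hC, ← hlam0, ← hlam2, ← hw] at h1
    exact h1
  rw [← hw] at hW'
  have hwpos : 0 < w := by rw [hw]; positivity
  have hwbig : (2:ℝ) ^ ((2 + 3 / 4 * ε) * d) ≤ w := by
    have h1 : (2:ℝ) ^ ((2 + ε) * d) ≤ w * (2:ℝ) ^ (ε / 4 * d) :=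
      hN.trans (hwN.trans (mul_le_mul_of_nonneg_left hCt hwpos.le))
    have h2 : (2:ℝ) ^ ((2 + ε) * d) = (2:ℝ) ^ ((2 + 3 / 4 * ε) * d) * (2:ℝ) ^ (ε / 4 * d) := by
      rw [← Real.rpow_add (by norm_num)]
      congr 1
      ring
    rw [h2] at h1
    exact le_of_mul_le_mul_right h1 (by positivity)
  obtain ⟨β, hβ⟩ : ∃ β : ℝ, β = 1 / 2 - g - ρ := ⟨_, rfl⟩
  obtain ⟨κ, hκ⟩ : ∃ κ : ℝ, κ = (1 / 2 - g - ρ) / (1 / 2 - g + τ) := ⟨_, rfl⟩
  have hβ4 : 1 / 4 ≤ β := by rw [hβ]; linarith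
  have hβpos : 0 < β := by linarith
  have hκpos : 0 < κ := by
    rw [hκ]
    apply div_pos <;> linarith
  have hκ1 : κ ≤ 1 := by
    rw [hκ, div_le_one (by linarith)]; linarith
  have hββ : (1 / 16 : ℝ) ^ t ≤ β ^ t * β ^ t := by
    rw [← mul_pow]
    apply pow_le_pow_left₀ (by norm_num)
    nlinarith
  have h2lam : 2 * lam0 = (1 / 16 : ℝ) ^ t := by
    rw [hlam0, pow_succ, pow_mul]
    have : ((2:ℝ) ^ 4) = 16 := by norm_num
    rw [this, one_div, inv_pow]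
    field_simp
  obtain ⟨ν, hν⟩ : ∃ ν : ℝ, ν = (2:ℝ) ^ (-(ε / 8 * d)) := ⟨_, rfl⟩
  have hνpos : 0 < ν := by rw [hν]; positivity
  obtain ⟨δ, hδ⟩ : ∃ δ : ℝ, δ = (2 * (2 * (d:ℝ)) ^ d)⁻¹ := ⟨_, rfl⟩
  have hδpos : 0 < δ := by rw [hδ]; positivity
  have hνδ : 2 ^ d * ν ^ t ≤ δ := by
    have h1 : ν ^ t = ((2:ℝ) ^ (ε / 8 * d * t))⁻¹ := by
      rw [hν, ← Real.rpow_natCast, ← Real.rpow_mul (by norm_num), ← Real.rpow_neg (by norm_num)]
      congr 1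
      ring
    rw [h1, hδ, ← div_eq_mul_inv, div_le_iff₀ (by positivity), inv_mul_eq_div,
      le_div_iff₀ (by positivity)]
    have h2 : (8 * (d:ℝ)) ^ d ≤ (2:ℝ) ^ (ε / 8 * d * t) := by
      calc (8 * (d:ℝ)) ^ d ≤ ((2:ℝ) ^ (ε / 8 * Real.sqrt d)) ^ d :=
            pow_le_pow_left₀ (by positivity) hc1 d
        _ = (2:ℝ) ^ (ε / 8 * Real.sqrt d * d) := by
            rw [Real.rpow_mul (by norm_num) (ε / 8 * Real.sqrt d), Real.rpow_natCast]
        _ ≤ (2:ℝ) ^ (ε / 8 * d * t) := by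
            apply Real.rpow_le_rpow_of_exponent_le (by norm_num)
            have h3 : ε / 8 * Real.sqrt d * d = ε / 8 * d * Real.sqrt d := by ring
            rw [h3]
            exact mul_le_mul_of_nonneg_left ht1 (by positivity)
    refine le_trans ?_ h2
    have h3 : (2:ℝ) ≤ 2 ^ d := by
      calc (2:ℝ) = 2 ^ 1 := (pow_one _).symm
        _ ≤ 2 ^ d := pow_le_pow_right₀ (by norm_num) (by omega)
    calc (2:ℝ) ^ d * (2 * (2 * (d:ℝ)) ^ d) ≤ 2 ^ d * (2 ^ d * (2 * (d:ℝ)) ^ d) := by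
          apply mul_le_mul_of_nonneg_left _ (by positivity)
          exact mul_le_mul_of_nonneg_right h3 (by positivity)
      _ = (8 * (d:ℝ)) ^ d := by
          rw [← mul_pow, ← mul_pow]
          congr 1
          ring
  obtain ⟨μ, hμ⟩ : ∃ μ : ℝ, μ = (κ * β) ^ d * (1 - ρ) ^ (m + 1 + 1) * ν := ⟨_, rfl⟩
  have hκβ : 0 < κ * β := mul_pos hκpos hβpos
  have h1ρ : 0 < 1 - ρ := by linarith
  have hμpos : 0 < μ := by rw [hμ]; positivity
  have hμbig : (2:ℝ) ^ (-((1 + 3 / 8 * ε) * d)) ≤ μ := by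
    have h1 : (2:ℝ) ^ (-(1 + ε / 4)) ≤ κ * β * (1 - ρ) := by
      have h2 : (2:ℝ) ^ (-(1 + ε / 4)) = 1 / 2 * (2:ℝ) ^ (-(ε / 4)) := by
        rw [neg_add, Real.rpow_add (by norm_num), Real.rpow_neg_one]
        ring
      rw [h2]
      rw [hκ, hβ]
      refine le_trans ?_ hdens
      linarith
    have h2 : ((2:ℝ) ^ (-(1 + ε / 4))) ^ d ≤ (κ * β * (1 - ρ)) ^ d :=
      pow_le_pow_left₀ (by positivity) h1 d
    have h3 : (κ * β * (1 - ρ)) ^ d ≤ (κ * β) ^ d * (1 - ρ) ^ (m + 1 + 1) := by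
      rw [mul_pow]
      apply mul_le_mul_of_nonneg_left _ (by positivity)
      apply pow_le_pow_of_le_one h1ρ.le (by linarith)
      omega
    have h4 : (2:ℝ) ^ (-((1 + 3 / 8 * ε) * d)) = ((2:ℝ) ^ (-(1 + ε / 4))) ^ d * ν := by
      rw [hν, ← Real.rpow_natCast, ← Real.rpow_mul (by norm_num), ← Real.rpow_add (by norm_num)]
      congr 1
      ring
    rw [h4, hμ]
    exact mul_le_mul_of_nonneg_right (h2.trans h3) hνpos.le
  refine embed (T := T) (W := W') (p := p) (q := q) (τ := τ) (lam := 2 * lam0) (w0 := w) (ρ := ρ)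
    (η := ρ) (β := β) (κ := κ) (δ := δ) (μ := μ) (t := t) (d := d) (m := m) (M := m + 1) rfl
    (by omega) (by omega) hW' hwpos hβpos (by rw [hβ]; linarith) (by rw [hβ, hq]) hτ0.le hρ0
    (by positivity) (by rw [h2lam]; exact hββ) (by linarith) ?_ hκpos hκ1 ?_ hμpos.le ?_ hδpos.le
    ?_ ?_ ?_
  · -- hη
    have h1 : 2 * lam0 ≤ g := by linarith
    have h2 : g ≤ ρ ^ 2 / 512 := by rw [hτ] at hg1; linarith
    have h3 : τ = ρ ^ 2 / 16 := hτ
    have h4 : (2 * lam0) * (ρ + τ) ≤ 2 * lam0 := by nlinarith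
    have h5 : 0 ≤ ρ * τ := by positivity
    nlinarith
  · -- hκ
    rw [hκ, hq, div_mul_cancel₀]
    have : (0:ℝ) < 1 / 2 - g + τ := by linarith
    exact this.ne'
  · -- hfin
    have h1 : μ ^ t = ((κ * β) ^ t) ^ d * ((1 - ρ) ^ t) ^ (m + 1 + 1) * ν ^ t := by
      rw [hμ, mul_pow, mul_pow, ← pow_mul, ← pow_mul, ← pow_mul, ← pow_mul]
      rw [mul_comm d t, mul_comm (m + 1 + 1) t]
    rw [h1]
    calc 2 ^ d * (((κ * β) ^ t) ^ d * ((1 - ρ) ^ t) ^ (m + 1 + 1) * ν ^ t)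
        = (2 ^ d * ν ^ t) * (((κ * β) ^ t) ^ d * ((1 - ρ) ^ t) ^ (m + 1 + 1)) := by ring
      _ ≤ δ * (((κ * β) ^ t) ^ d * ((1 - ρ) ^ t) ^ (m + 1 + 1)) :=
          mul_le_mul_of_nonneg_right hνδ (by positivity)
      _ = _ := by ring
  · -- hδ1
    rw [hδ]
    have h1 : (0:ℝ) < (2 * (d:ℝ)) ^ d := by positivity
    rw [inv_mul_lt_iff₀ (by positivity)]
    linarith
  · -- hsz1
    have h1 : (2:ℝ) * 2 ^ d ≤ (1 / 16 : ℝ) ^ t * w := by
      have h2 : (1 / 16 : ℝ) ^ t = (2:ℝ) ^ (-(4 * (t:ℝ))) := by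
        rw [Real.rpow_neg (by norm_num), Real.rpow_mul (by norm_num), Real.rpow_natCast, one_div,
          inv_pow]
        congr 2
        norm_num
      calc (2:ℝ) * 2 ^ d = (2:ℝ) ^ ((d:ℝ) + 1) := by
            rw [Real.rpow_add (by norm_num), Real.rpow_natCast, Real.rpow_one]; ring
        _ ≤ (2:ℝ) ^ (-(4 * (t:ℝ)) + (2 + 3 / 4 * ε) * d) := by
            apply Real.rpow_le_rpow_of_exponent_le (by norm_num)
            nlinarith
        _ = (1 / 16 : ℝ) ^ t * (2:ℝ) ^ ((2 + 3 / 4 * ε) * d) := by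
            rw [h2, ← Real.rpow_add (by norm_num)]
        _ ≤ (1 / 16 : ℝ) ^ t * w := mul_le_mul_of_nonneg_left hwbig (by positivity)
    exact h1.trans (mul_le_mul_of_nonneg_right hββ hwpos.le)
  · -- hsz2
    calc (2:ℝ) ^ d = (2:ℝ) ^ (d:ℝ) := (Real.rpow_natCast _ _).symm
      _ ≤ (2:ℝ) ^ (-((1 + 3 / 8 * ε) * d) + (2 + 3 / 4 * ε) * d) := by
          apply Real.rpow_le_rpow_of_exponent_le (by norm_num)
          nlinarith [mul_pos hε hdpos]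
      _ = (2:ℝ) ^ (-((1 + 3 / 8 * ε) * d)) * (2:ℝ) ^ ((2 + 3 / 4 * ε) * d) := by
          rw [← Real.rpow_add (by norm_num)]
      _ ≤ μ * w := mul_le_mul hμbig hwbig (by positivity) hμpos.le

/-- The theorem for arbitrary tournaments. -/
theorem cube_upper {ε : ℝ} (hε : 0 < ε) : ∃ d0 : ℕ, ∀ d : ℕ, d0 ≤ d →
    ∀ (V : Type) [Fintype V] (T : V → V → Prop), IsTournament T →
    (2:ℝ) ^ ((2 + ε) * d) ≤ Fintype.card V →
    ∃ φ : Finset (Fin d) → V, Function.Injective φ ∧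
      ∀ (s : Finset (Fin d)) (a : Fin d), a ∉ s → T (φ s) (φ (insert a s)) := by
  classical
  obtain ⟨d0, hd0⟩ := core hε
  refine ⟨d0, fun d hd V _ T hT hN => ?_⟩
  obtain ⟨σ, hσ⟩ := exists_median T hT
  obtain ⟨φ, hφ, hφ2⟩ := hd0 d hd (Fintype.card V) hN (fun a b => T (σ.symm a) (σ.symm b))
    ⟨fun a => hT.1 _, fun a b hab => hT.2 _ _ (fun h => hab (σ.symm.injective h))⟩ (by
      intro v j
      have h := hσ (σ.symm v) j
      have key : ∀ P : V → Prop, (univ.filter (fun u : Fin (Fintype.card V) =>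
          (v < u ∧ (u : ℕ) < j) ∧ P (σ.symm u))).card =
          (univ.filter (fun u : V => (σ (σ.symm v) < σ u ∧ (σ u : ℕ) < j) ∧ P u)).card := by
        intro P
        apply Finset.card_bij (fun u _ => σ.symm u)
        · intro u hu
          simp only [Finset.mem_filter, Finset.mem_univ, true_and] at hu ⊢
          simpa using hu
        · intro a _ b _ hab
          exact σ.symm.injective hab
        · intro u hu
          simp only [Finset.mem_filter, Finset.mem_univ, true_and] at hu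
          refine ⟨σ u, ?_, by simp⟩
          simp only [Finset.mem_filter, Finset.mem_univ, true_and]
          simpa using hu
      rw [key (fun u => T u (σ.symm v)), key (fun u => T (σ.symm v) u)]
      exact h)
  exact ⟨fun s => σ.symm (φ s), fun a b h => hφ (σ.symm.injective h), fun s a ha => hφ2 s a ha⟩

end Pool.Agent.H97.QD
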