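import Pool.Agent.H97.QD.Greedy

/-!
# A good choice of the tuples
-/

namespace Pool.Agent.H97.QD

open Finset

variable {V : Type}

/-- candidate sets for the even layers -/
noncomputable def Us (T : V → V → Prop) (W : ℕ → Finset V) {t : ℕ} (xs : ℕ → Fin t → V) (i : ℕ) :
    Finset V := innT T (outT T (W (2 * i + 2)) (xs i)) (xs (i + 1))

open Classical in
/-- the vertices between the images of the in- and outneighbours of `y` -/
noncomputable def Btw (T : V → V → Prop) (W : ℕ → Finset V) {d : ℕ} (y : Finset (Fin d))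
    (h : Fin d → V) : Finset V :=
  (W (y.card + 2)).filter (fun v => ∀ a, if a ∈ y then T (h a) v else T v (h a))

open Classical in
lemma mem_Btw {T : V → V → Prop} {W : ℕ → Finset V} {d : ℕ} {y : Finset (Fin d)}
    {h : Fin d → V} {v : V} : v ∈ Btw T W y h ↔ v ∈ W (y.card + 2) ∧
      ∀ a, if a ∈ y then T (h a) v else T v (h a) := by
  simp [Btw]

open Classical in
/-- number of bad pairs of neighbourhoods inside the candidate sets -/
noncomputable def Gy (T : V → V → Prop) (W : ℕ → Finset V) {t d : ℕ} (xs : ℕ → Fin t → V) (μ : ℝ)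
    (y : Finset (Fin d)) : ℕ :=
  ((Fintype.piFinset (fun a : Fin d => if a ∈ y then Us T W xs (y.card / 2)
    else Us T W xs (y.card / 2 + 1))).filter
    (fun h => ((Btw T W y h).card : ℝ) < μ * (W (y.card + 2)).card)).card

/-- the sequence on `ℕ` given by a finite sequence -/
def toSeq {X : Type} {M : ℕ} (x : Fin (M + 1) → X) (i : ℕ) : X := x ⟨min i M, by omega⟩

lemma toSeq_of_le {X : Type} {M : ℕ} (x : Fin (M + 1) → X) {i : ℕ} (hi : i ≤ M) :
    toSeq x i = x ⟨i, by omega⟩ := by
  unfold toSeq
  congr 1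
  ext
  simp [hi]

lemma toSeq_update_self {X : Type} {M : ℕ} (x : Fin (M + 1) → X) {i : ℕ} (hi : i ≤ M) (z : X) :
    toSeq (Function.update x ⟨i, by omega⟩ z) i = z := by
  rw [toSeq_of_le _ hi, Function.update_self]

lemma toSeq_update_ne {X : Type} {M : ℕ} (x : Fin (M + 1) → X) {i j : ℕ} (hi : i ≤ M)
    (hj : j ≤ M) (hij : j ≠ i) (z : X) :
    toSeq (Function.update x ⟨i, by omega⟩ z) j = toSeq x j := by
  rw [toSeq_of_le _ hj, toSeq_of_le _ hj, Function.update_of_ne]
  intro h
  exact hij (Fin.mk.inj_iff.1 h)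

open Classical in
/-- The expected number of bad pairs. -/
lemma sum_bad {T : V → V → Prop} {W : ℕ → Finset V} {t d M : ℕ} {μ : ℝ} (hμ : 0 ≤ μ)
    {Xa Xb : ℝ} (y : Finset (Fin d)) (j : ℕ) (hy : y.card = 2 * j + 1) (hj : j + 2 ≤ M)
    (hW : 0 < (W (2 * j + 3)).card) (hXa : 0 ≤ Xa) (hXb : 0 ≤ Xb) :
    ∑ x ∈ (Fintype.piFinset (fun i : Fin (M + 1) =>
        Fintype.piFinset (fun _ : Fin t => W (2 * i + 1)))).filter
        (fun x => ((outT T (W (2 * j + 2)) (toSeq x j)).card : ℝ) ≤ Xa ∧
          ((innT T (W (2 * j + 4)) (toSeq x (j + 2))).card : ℝ) ≤ Xb),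
      (Gy T W (toSeq x) μ y : ℝ) ≤
    μ ^ t * (∏ a : Fin d, if a ∈ y then Xa else Xb) *
      (Fintype.piFinset (fun i : Fin (M + 1) =>
        Fintype.piFinset (fun _ : Fin t => W (2 * i + 1)))).card := by
  set Ω : Fin (M + 1) → Finset (Fin t → V) :=
    fun i => Fintype.piFinset (fun _ : Fin t => W (2 * i + 1)) with hΩ
  set H : (Fin t → V) → (Fin t → V) → Finset (Fin d → V) := fun z z' =>
    Fintype.piFinset (fun a : Fin d => if a ∈ y then outT T (W (2 * j + 2)) z
      else innT T (W (2 * j + 4)) z') with hH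
  set f : (Fin (M + 1) → Fin t → V) → ℝ := fun x =>
    if ((outT T (W (2 * j + 2)) (toSeq x j)).card : ℝ) ≤ Xa ∧
          ((innT T (W (2 * j + 4)) (toSeq x (j + 2))).card : ℝ) ≤ Xb then
      (((H (toSeq x j) (toSeq x (j + 2))).filter (fun h =>
        ((Btw T W y h).card : ℝ) < μ * (W (y.card + 2)).card ∧
          ∀ s, toSeq x (j + 1) s ∈ Btw T W y h)).card : ℝ) else 0 with hf
  have hj2 : y.card / 2 = j := by omega
  have hle : ∑ x ∈ (Fintype.piFinset Ω).filter
        (fun x => ((outT T (W (2 * j + 2)) (toSeq x j)).card : ℝ) ≤ Xa ∧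
          ((innT T (W (2 * j + 4)) (toSeq x (j + 2))).card : ℝ) ≤ Xb),
      (Gy T W (toSeq x) μ y : ℝ) ≤ ∑ x ∈ Fintype.piFinset Ω, f x := by
    rw [Finset.sum_filter]
    apply Finset.sum_le_sum
    intro x hx
    simp only [hf]
    split_ifs with hc
    · unfold Gy
      refine Nat.cast_le.2 (Finset.card_le_card ?_)
      intro h hh
      rw [Finset.mem_filter, Fintype.mem_piFinset] at hh
      rw [Finset.mem_filter, hH, Fintype.mem_piFinset]
      rw [hj2] at hh
      obtain ⟨hh1, hh2⟩ := hh
      rw [Fintype.mem_piFinset] at hx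
      refine ⟨?_, hh2, ?_⟩
      · intro a
        have := hh1 a
        by_cases ha : a ∈ y
        · rw [if_pos ha] at this ⊢
          unfold Us at this
          exact innT_subset _ _ _ this
        · rw [if_neg ha] at this ⊢
          unfold Us at this
          rw [mem_innT, mem_outT] at this
          rw [mem_innT]
          have e1 : 2 * (j + 1) + 2 = 2 * j + 4 := by ring
          rw [e1] at this
          exact ⟨this.1.1, this.2⟩
      · intro s
        rw [mem_Btw]
        refine ⟨?_, ?_⟩
        · have h3 := hx ⟨j + 1, by omega⟩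
          rw [hΩ, Fintype.mem_piFinset] at h3
          have h4 := h3 s
          rw [toSeq_of_le x (by omega : j + 1 ≤ M)]
          have e1 : y.card + 2 = 2 * (j + 1) + 1 := by omega
          rw [e1]
          exact h4
        · intro a
          have := hh1 a
          by_cases ha : a ∈ y
          · rw [if_pos ha] at this ⊢
            unfold Us at this
            rw [mem_innT] at this
            exact this.2 s
          · rw [if_neg ha] at this ⊢
            unfold Us at this
            rw [mem_innT, mem_outT] at this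
            exact this.1.2 s
    · exact le_rfl
  refine le_trans hle ?_
  -- resample the coordinate j+1
  have hk : j + 1 < M + 1 := by omega
  have hres := resample Ω ⟨j + 1, hk⟩ f
  have hΩk : (Ω ⟨j + 1, hk⟩).card = (W (2 * j + 3)).card ^ t := by
    rw [hΩ]
    have e1 : 2 * (j + 1) + 1 = 2 * j + 3 := by ring
    simp only [e1, Fintype.card_piFinset, Finset.prod_const, Finset.card_univ, Fintype.card_fin]
  have hΩkpos : (0:ℝ) < (Ω ⟨j + 1, hk⟩).card := by
    rw [hΩk, Nat.cast_pow]
    exact pow_pos (by exact_mod_cast hW) t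
  have hinner : ∀ x ∈ Fintype.piFinset Ω,
      ∑ z ∈ Ω ⟨j + 1, hk⟩, f (Function.update x ⟨j + 1, hk⟩ z) ≤
        μ ^ t * (∏ a : Fin d, if a ∈ y then Xa else Xb) * (Ω ⟨j + 1, hk⟩).card := by
    intro x _
    have hjM : j ≤ M := by omega
    have e1 : ∀ z, toSeq (Function.update x ⟨j + 1, hk⟩ z) j = toSeq x j :=
      fun z => toSeq_update_ne x (by omega) hjM (by omega) z
    have e2 : ∀ z, toSeq (Function.update x ⟨j + 1, hk⟩ z) (j + 2) = toSeq x (j + 2) :=
      fun z => toSeq_update_ne x (by omega) hj (by omega) z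
    have e3 : ∀ z, toSeq (Function.update x ⟨j + 1, hk⟩ z) (j + 1) = z :=
      fun z => toSeq_update_self x (by omega) z
    simp only [hf, e1, e2, e3]
    have hRpos : 0 ≤ μ ^ t * (∏ a : Fin d, if a ∈ y then Xa else Xb) *
        ((Ω ⟨j + 1, hk⟩).card : ℝ) := by
      apply mul_nonneg (mul_nonneg (pow_nonneg hμ t) _) (Nat.cast_nonneg _)
      apply Finset.prod_nonneg
      intro a _
      split_ifs <;> assumption
    by_cases hc : ((outT T (W (2 * j + 2)) (toSeq x j)).card : ℝ) ≤ Xa ∧
          ((innT T (W (2 * j + 4)) (toSeq x (j + 2))).card : ℝ) ≤ Xb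
    · simp only [if_pos hc]
      set HH := H (toSeq x j) (toSeq x (j + 2)) with hHH
      have h1 : ∑ z ∈ Ω ⟨j + 1, hk⟩, ((HH.filter (fun h =>
          ((Btw T W y h).card : ℝ) < μ * (W (y.card + 2)).card ∧
          ∀ s, z s ∈ Btw T W y h)).card : ℝ) =
          ∑ h ∈ HH, ∑ z ∈ Ω ⟨j + 1, hk⟩, if ((Btw T W y h).card : ℝ) < μ * (W (y.card + 2)).card ∧
          (∀ s, z s ∈ Btw T W y h) then (1:ℝ) else 0 := by
        rw [Finset.sum_comm]
        apply Finset.sum_congr rfl
        intro z _
        rw [Finset.card_filter]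
        push_cast
        rfl
      rw [h1]
      have h2 : ∀ h ∈ HH, (∑ z ∈ Ω ⟨j + 1, hk⟩,
          if ((Btw T W y h).card : ℝ) < μ * (W (y.card + 2)).card ∧
          (∀ s, z s ∈ Btw T W y h) then (1:ℝ) else 0) ≤ μ ^ t * (Ω ⟨j + 1, hk⟩).card := by
        intro h _
        by_cases hb : ((Btw T W y h).card : ℝ) < μ * (W (y.card + 2)).card
        · have h3 : (∑ z ∈ Ω ⟨j + 1, hk⟩,
            if ((Btw T W y h).card : ℝ) < μ * (W (y.card + 2)).card ∧
            (∀ s, z s ∈ Btw T W y h) then (1:ℝ) else 0) ≤ ((Btw T W y h).card : ℝ) ^ t := by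
            have h4 : (∑ z ∈ Ω ⟨j + 1, hk⟩,
              if ((Btw T W y h).card : ℝ) < μ * (W (y.card + 2)).card ∧
              (∀ s, z s ∈ Btw T W y h) then (1:ℝ) else 0) =
              (((Ω ⟨j + 1, hk⟩).filter (fun z => ((Btw T W y h).card : ℝ) <
                μ * (W (y.card + 2)).card ∧ (∀ s, z s ∈ Btw T W y h))).card : ℝ) := by
              rw [Finset.card_filter]; push_cast; rfl
            rw [h4]
            have h5 : ((Ω ⟨j + 1, hk⟩).filter (fun z => ((Btw T W y h).card : ℝ) <
                μ * (W (y.card + 2)).card ∧ (∀ s, z s ∈ Btw T W y h))).card ≤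
                (Fintype.piFinset (fun _ : Fin t => Btw T W y h)).card := by
              apply Finset.card_le_card
              intro z hz
              rw [Finset.mem_filter] at hz
              rw [Fintype.mem_piFinset]
              exact hz.2.2
            rw [Fintype.card_piFinset, Finset.prod_const, Finset.card_univ,
              Fintype.card_fin] at h5
            refine le_trans (Nat.cast_le.2 h5) (le_of_eq ?_)
            rw [Nat.cast_pow]
          refine le_trans h3 ?_
          rw [hΩk]
          push_cast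
          rw [← mul_pow]
          apply pow_le_pow_left₀ (Nat.cast_nonneg _)
          have e4 : y.card + 2 = 2 * j + 3 := by omega
          rw [e4] at hb
          exact hb.le
        · have h3 : (∑ z ∈ Ω ⟨j + 1, hk⟩,
            if ((Btw T W y h).card : ℝ) < μ * (W (y.card + 2)).card ∧
            (∀ s, z s ∈ Btw T W y h) then (1:ℝ) else 0) = 0 := by
            apply Finset.sum_eq_zero
            intro z _
            rw [if_neg]
            intro hh
            exact hb hh.1
          rw [h3]
          exact mul_nonneg (pow_nonneg hμ t) (Nat.cast_nonneg _)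
      have hHHc : (HH.card : ℝ) ≤ ∏ a : Fin d, (if a ∈ y then Xa else Xb) := by
        rw [hHH, hH]
        simp only [Fintype.card_piFinset]
        push_cast
        apply Finset.prod_le_prod
        · intro a _; exact Nat.cast_nonneg _
        · intro a _
          by_cases ha : a ∈ y
          · simp only [if_pos ha]; exact hc.1
          · simp only [if_neg ha]; exact hc.2
      calc _ ≤ ∑ _h ∈ HH, μ ^ t * ((Ω ⟨j + 1, hk⟩).card : ℝ) := Finset.sum_le_sum h2
        _ = HH.card * (μ ^ t * (Ω ⟨j + 1, hk⟩).card) := by rw [Finset.sum_const, nsmul_eq_mul]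
        _ ≤ (∏ a : Fin d, (if a ∈ y then Xa else Xb)) * (μ ^ t * (Ω ⟨j + 1, hk⟩).card) :=
            mul_le_mul_of_nonneg_right hHHc (mul_nonneg (pow_nonneg hμ t) (Nat.cast_nonneg _))
        _ = _ := by ring
    · simp only [if_neg hc, Finset.sum_const_zero]
      exact hRpos
  have hfin : (∑ x ∈ Fintype.piFinset Ω, f x) * (Ω ⟨j + 1, hk⟩).card ≤
      (μ ^ t * (∏ a : Fin d, if a ∈ y then Xa else Xb) * (Fintype.piFinset Ω).card) *
        (Ω ⟨j + 1, hk⟩).card := by
    rw [hres]
    refine (Finset.sum_le_sum hinner).trans (le_of_eq ?_)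
    rw [Finset.sum_const, nsmul_eq_mul]
    ring
  exact le_of_mul_le_mul_right hfin hΩkpos

end Pool.Agent.H97.QD
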