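import Pool.Agent.H97.QD.Choose

/-!
# Embedding the oriented hypercube
-/

namespace Pool.Agent.H97.QD

open Finset

variable {V : Type}

/-- toggle one element -/
def tg {d : ℕ} (s : Finset (Fin d)) (a : Fin d) : Finset (Fin d) :=
  if a ∈ s then s.erase a else insert a s

lemma mem_tg_self {d : ℕ} (s : Finset (Fin d)) (a : Fin d) : a ∈ tg s a ↔ a ∉ s := by
  unfold tg
  split_ifs with h <;> simp [h]

lemma mem_tg_ne {d : ℕ} (s : Finset (Fin d)) {a b : Fin d} (hab : b ≠ a) :
    b ∈ tg s a ↔ b ∈ s := by
  unfold tg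
  split_ifs with h <;> simp [hab]

lemma tg_tg {d : ℕ} (s : Finset (Fin d)) (a : Fin d) : tg (tg s a) a = s := by
  ext b
  by_cases hb : b = a
  · subst hb
    rw [mem_tg_self, mem_tg_self, not_not]
  · rw [mem_tg_ne _ hb, mem_tg_ne _ hb]

lemma tg_inj {d : ℕ} (s : Finset (Fin d)) {a b : Fin d} (h : tg s a = tg s b) : a = b := by
  by_contra hab
  have h1 := mem_tg_self s a
  rw [h, mem_tg_ne s hab] at h1
  tauto

lemma card_tg_mem {d : ℕ} {s : Finset (Fin d)} {a : Fin d} (h : a ∈ s) :
    (tg s a).card + 1 = s.card := by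
  unfold tg
  rw [if_pos h, Finset.card_erase_add_one h]

lemma card_tg_notMem {d : ℕ} {s : Finset (Fin d)} {a : Fin d} (h : a ∉ s) :
    (tg s a).card = s.card + 1 := by
  unfold tg
  rw [if_neg h, Finset.card_insert_of_notMem h]

lemma even_tg {d : ℕ} {s : Finset (Fin d)} (hs : Odd s.card) (a : Fin d) :
    Even (tg s a).card := by
  obtain ⟨k, hk⟩ := hs
  by_cases h : a ∈ s
  · have := card_tg_mem h
    exact ⟨k, by omega⟩
  · have := card_tg_notMem h
    exact ⟨k + 1, by omega⟩

lemma odd_tg {d : ℕ} {s : Finset (Fin d)} (hs : Even s.card) (a : Fin d) :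
    Odd (tg s a).card := by
  obtain ⟨k, hk⟩ := hs
  by_cases h : a ∈ s
  · have := card_tg_mem h
    exact ⟨k - 1, by omega⟩
  · have := card_tg_notMem h
    exact ⟨k, by omega⟩

/-- even vertices of the cube -/
abbrev Ev (d : ℕ) : Type := {s : Finset (Fin d) // Even s.card}

/-- odd vertices of the cube -/
abbrev Od (d : ℕ) : Type := {s : Finset (Fin d) // Odd s.card}

/-- the neighbours of an odd vertex -/
def nbm {d : ℕ} (y : Od d) (a : Fin d) : Ev d := ⟨tg y.1 a, even_tg y.2 a⟩

lemma nbm_injective {d : ℕ} (y : Od d) : Function.Injective (nbm y) := by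
  intro a b h
  exact tg_inj y.1 (congrArg Subtype.val h)

lemma card_Ev_le (d : ℕ) : Fintype.card (Ev d) ≤ 2 ^ d := by
  have h := Fintype.card_subtype_le (fun s : Finset (Fin d) => Even s.card)
  rwa [Fintype.card_finset, Fintype.card_fin] at h

lemma card_Od_le (d : ℕ) : Fintype.card (Od d) ≤ 2 ^ d := by
  have h := Fintype.card_subtype_le (fun s : Finset (Fin d) => Odd s.card)
  rwa [Fintype.card_finset, Fintype.card_fin] at h

open Classical in
/-- Fibring over some of the coordinates. -/
lemma card_comp {α ι : Type} [Fintype α] [DecidableEq α] [Fintype ι] [DecidableEq ι]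
    (U : ι → Finset V) (φ : α → ι) (hφ : Function.Injective φ) (B : (α → V) → Prop) :
    ((Fintype.piFinset U).filter (fun f => B (fun a => f (φ a)))).card *
      (Fintype.piFinset (fun a => U (φ a))).card =
    ((Fintype.piFinset (fun a => U (φ a))).filter (fun h => B h)).card *
      (Fintype.piFinset U).card := by
  rw [← Finset.card_product, ← Finset.card_product]
  have key : ∀ (f : ι → V) (h : α → V), f ∈ Fintype.piFinset U →
      h ∈ Fintype.piFinset (fun a => U (φ a)) → Function.extend φ h f ∈ Fintype.piFinset U := by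
    intro f h hf hh
    rw [Fintype.mem_piFinset] at hf hh ⊢
    intro i
    by_cases hi : ∃ a, φ a = i
    · obtain ⟨a, rfl⟩ := hi
      rw [hφ.extend_apply]
      exact hh a
    · rw [Function.extend_apply' _ _ _ hi]
      exact hf i
  have key2 : ∀ (f : ι → V) (h : α → V),
      Function.extend φ (fun a => f (φ a)) (Function.extend φ h f) = f := by
    intro f h
    funext i
    by_cases hi : ∃ a, φ a = i
    · obtain ⟨a, rfl⟩ := hi
      rw [hφ.extend_apply]
    · rw [Function.extend_apply' _ _ _ hi, Function.extend_apply' _ _ _ hi]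
  have key3 : ∀ (f : ι → V) (h : α → V), (fun a => Function.extend φ h f (φ a)) = h := by
    intro f h
    funext a
    rw [hφ.extend_apply]
  refine Finset.card_bij' (fun z _ => ((fun a => z.1 (φ a)), Function.extend φ z.2 z.1))
    (fun z _ => (Function.extend φ z.1 z.2, fun a => z.2 (φ a))) ?_ ?_ ?_ ?_
  · rintro ⟨f, h⟩ hz
    rw [Finset.mem_product, Finset.mem_filter] at hz
    rw [Finset.mem_product, Finset.mem_filter]
    refine ⟨⟨?_, hz.1.2⟩, key f h hz.1.1 hz.2⟩
    rw [Fintype.mem_piFinset]
    intro a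
    exact Fintype.mem_piFinset.1 hz.1.1 (φ a)
  · rintro ⟨h, f⟩ hz
    rw [Finset.mem_product, Finset.mem_filter] at hz
    rw [Finset.mem_product, Finset.mem_filter]
    refine ⟨⟨key f h hz.2 hz.1.1, ?_⟩, ?_⟩
    · show B (fun a => Function.extend φ h f (φ a))
      rw [key3 f h]
      exact hz.1.2
    · rw [Fintype.mem_piFinset]
      intro a
      exact Fintype.mem_piFinset.1 hz.2 (φ a)
  · rintro ⟨f, h⟩ _
    simp only [Prod.mk.injEq]
    exact ⟨key2 f h, key3 f h⟩
  · rintro ⟨h, f⟩ _
    simp only [Prod.mk.injEq]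
    exact ⟨key3 f h, key2 f h⟩

open Classical in
/-- The embedding theorem. -/
lemma embed {T : V → V → Prop} {W : ℕ → Finset V} {p : ℕ → ℝ}
    {q τ lam w0 ρ η β κ δ μ : ℝ} {t d m M : ℕ} (hM : M = m + 1) (hd : d ≤ 2 * m) (hd0 : 0 < d)
    (h : CChain T (2 * M + 2) W p q τ lam w0) (hw0 : 0 < w0)
    (hβ : 0 < β) (hβ1 : β ≤ 1) (hβq : β ≤ q - ρ) (hτ : 0 ≤ τ) (hρ : 0 < ρ)
    (hlam : 0 < lam) (hlamβ : lam ≤ β ^ t * β ^ t) (hη0 : η < 1)
    (hη : 2 * (2 * τ + lam) ≤ (η - 2 * lam) * (ρ + τ))
    (hκ0 : 0 < κ) (hκ1 : κ ≤ 1) (hκ : κ * (q + τ) ≤ q - ρ) (hμ : 0 ≤ μ)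
    (hfin : 2 ^ d * μ ^ t ≤ δ * ((κ * β) ^ t) ^ d * ((1 - η) ^ t) ^ (M + 1)) (hδ : 0 ≤ δ)
    (hδ1 : δ * (2 * d) ^ d < 1) (hsz1 : 2 * 2 ^ d ≤ β ^ t * β ^ t * w0)
    (hsz2 : 2 ^ d ≤ μ * w0) :
    ∃ φ : Finset (Fin d) → V, Function.Injective φ ∧
      ∀ (s : Finset (Fin d)) (a : Fin d), a ∉ s → T (φ s) (φ (insert a s)) := by
  obtain ⟨xs, hU1, hG⟩ := exists_seq hM hd h hw0 hβ hβ1 hβq hτ hρ hlam hlamβ hη0 hη hκ0 hκ1 hκ
    hμ hfin hδ
  have hcardle : ∀ s : Finset (Fin d), s.card ≤ d := by
    intro s
    have := Finset.card_le_univ s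
    simpa using this
  set U : Ev d → Finset V := fun s => Us T W xs (s.1.card / 2) with hU
  set Bad : Od d → (Ev d → V) → Prop := fun y f =>
    ((Btw T W y.1 (fun a => f (nbm y a))).card : ℝ) < μ * (W (y.1.card + 2)).card with hBad
  have hUcard : ∀ s : Ev d, (2 * 2 ^ d : ℝ) ≤ (U s).card := by
    intro s
    refine le_trans hsz1 (hU1 (s.1.card / 2) ?_)
    have := hcardle s.1
    omega
  have hUnb : ∀ y : Od d, (fun a => U (nbm y a)) = (fun a : Fin d =>
      if a ∈ y.1 then Us T W xs (y.1.card / 2) else Us T W xs (y.1.card / 2 + 1)) := by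
    intro y
    funext a
    obtain ⟨k, hk⟩ := y.2
    simp only [hU, nbm]
    by_cases ha : a ∈ y.1
    · rw [if_pos ha]
      have h1 := card_tg_mem ha
      have h2 : (tg y.1 a).card / 2 = y.1.card / 2 := by omega
      rw [h2]
    · rw [if_neg ha]
      have h1 := card_tg_notMem ha
      have h2 : (tg y.1 a).card / 2 = y.1.card / 2 + 1 := by omega
      rw [h2]
  obtain ⟨f, hfU, hfinj, hfB⟩ := greedy U Bad (fun y => Finset.univ.image (nbm y)) d hd0
    (by
      intro y
      refine Finset.card_image_le.trans ?_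
      simp)
    (by
      intro i
      have h1 : (Finset.univ.filter (fun y : Od d => i ∈ Finset.univ.image (nbm y))) ⊆
          Finset.univ.image (fun a : Fin d => (⟨tg i.1 a, odd_tg i.2 a⟩ : Od d)) := by
        intro y hy
        rw [Finset.mem_filter, Finset.mem_image] at hy
        obtain ⟨_, a, _, ha⟩ := hy
        rw [Finset.mem_image]
        refine ⟨a, Finset.mem_univ _, ?_⟩
        apply Subtype.ext
        show tg i.1 a = y.1
        rw [← ha]
        exact tg_tg y.1 a
      refine (Finset.card_le_card h1).trans (Finset.card_image_le.trans ?_)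
      simp)
    (by
      intro y f g hfg
      have h1 : (fun a => f (nbm y a)) = (fun a => g (nbm y a)) := by
        funext a
        exact hfg _ (Finset.mem_image_of_mem _ (Finset.mem_univ a))
      simp only [hBad, h1])
    (by
      intro s
      have h1 := hUcard s
      have h2 := card_Ev_le d
      have h3 : 2 * 2 ^ d ≤ (U s).card := by exact_mod_cast h1
      omega)
    hδ hδ1
    (by
      intro y
      have h1 := card_comp U (nbm y) (nbm_injective y)
        (fun g => ((Btw T W y.1 g).card : ℝ) < μ * (W (y.1.card + 2)).card)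
      have h2 := hG y.1 y.2
      have h3 : (0:ℝ) < (Fintype.piFinset (fun a => U (nbm y a))).card := by
        rw [Fintype.card_piFinset]
        push_cast
        apply Finset.prod_pos
        intro a _
        exact lt_of_lt_of_le (by positivity) (hUcard (nbm y a))
      have h4 : (((Fintype.piFinset (fun a => U (nbm y a))).filter
          (fun g => ((Btw T W y.1 g).card : ℝ) < μ * (W (y.1.card + 2)).card)).card : ℝ) ≤
          δ * (Fintype.piFinset (fun a => U (nbm y a))).card := by
        rw [hUnb y, Fintype.card_piFinset]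
        unfold Gy at h2
        push_cast
        convert h2 using 1
      have h5 : (((Fintype.piFinset U).filter (fun g => Bad y g)).card : ℝ) *
          (Fintype.piFinset (fun a => U (nbm y a))).card ≤
          (δ * (Fintype.piFinset U).card) * (Fintype.piFinset (fun a => U (nbm y a))).card := by
        have h6 : (((Fintype.piFinset U).filter (fun g => Bad y g)).card : ℝ) *
          (Fintype.piFinset (fun a => U (nbm y a))).card =
          (((Fintype.piFinset (fun a => U (nbm y a))).filter
          (fun g => ((Btw T W y.1 g).card : ℝ) < μ * (W (y.1.card + 2)).card)).card : ℝ) *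
          (Fintype.piFinset U).card := by exact_mod_cast h1
        rw [h6]
        calc _ ≤ (δ * (Fintype.piFinset (fun a => U (nbm y a))).card) *
              ((Fintype.piFinset U).card : ℝ) :=
              mul_le_mul_of_nonneg_right h4 (Nat.cast_nonneg _)
          _ = _ := by ring
      exact le_of_mul_le_mul_right h5 h3)
  -- the odd vertices
  set B : Od d → Finset V := fun y => Btw T W y.1 (fun a => f (nbm y a)) with hB
  have hBcard : ∀ y, (2:ℝ) ^ d ≤ (B y).card := by
    intro y
    have h1 := not_lt.1 (hfB y)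
    refine le_trans hsz2 (le_trans ?_ h1)
    apply mul_le_mul_of_nonneg_left _ hμ
    apply h.size
    have := hcardle y.1
    omega
  obtain ⟨g, hginj, hgB⟩ := (Finset.all_card_le_biUnion_card_iff_exists_injective B).1 (by
    intro S
    rcases S.eq_empty_or_nonempty with rfl | ⟨y, hy⟩
    · simp
    · have h1 : (B y).card ≤ (S.biUnion B).card :=
        Finset.card_le_card (Finset.subset_biUnion_of_mem B hy)
      have h2 : 2 ^ d ≤ (B y).card := by exact_mod_cast hBcard y
      have h3 : S.card ≤ Fintype.card (Od d) := Finset.card_le_univ S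
      have h4 := card_Od_le d
      omega)
  have hfW : ∀ s : Ev d, f s ∈ W (s.1.card + 2) := by
    intro s
    have h1 := hfU s
    simp only [hU, Us] at h1
    have h2 := outT_subset _ _ _ (innT_subset _ _ _ h1)
    obtain ⟨k, hk⟩ := s.2
    have h3 : 2 * (s.1.card / 2) + 2 = s.1.card + 2 := by omega
    rwa [h3] at h2
  have hgW : ∀ s : Od d, g s ∈ W (s.1.card + 2) := by
    intro s
    have h1 := hgB s
    simp only [hB, mem_Btw] at h1
    exact h1.1
  have hdisj : ∀ (s : Ev d) (s' : Od d), f s ≠ g s' := by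
    intro s s' heq
    have h1 := hfW s
    have h2 := hgW s'
    rw [heq] at h1
    have hne : s.1.card ≠ s'.1.card := by
      intro hh
      have h3 := s.2
      rw [hh] at h3
      exact (Nat.not_even_iff_odd.2 s'.2) h3
    have hs := hcardle s.1
    have hs' := hcardle s'.1
    rcases lt_or_gt_of_ne hne with hlt | hlt
    · exact Finset.disjoint_left.1 (h.disj (s.1.card + 2) (s'.1.card + 2) (by omega) (by omega))
        h1 h2
    · exact Finset.disjoint_left.1 (h.disj (s'.1.card + 2) (s.1.card + 2) (by omega) (by omega))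
        h2 h1
  refine ⟨fun s => if hs : Even s.card then f ⟨s, hs⟩ else g ⟨s, Nat.not_even_iff_odd.1 hs⟩,
    ?_, ?_⟩
  · intro s s' hss
    by_cases hs : Even s.card
    · by_cases hs' : Even s'.card
      · simp only [dif_pos hs, dif_pos hs'] at hss
        exact congrArg Subtype.val (hfinj hss)
      · simp only [dif_pos hs, dif_neg hs'] at hss
        exact absurd hss (hdisj _ _)
    · by_cases hs' : Even s'.card
      · simp only [dif_neg hs, dif_pos hs'] at hss
        exact absurd hss.symm (hdisj _ _)
      · simp only [dif_neg hs, dif_neg hs'] at hss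
        exact congrArg Subtype.val (hginj hss)
  · intro s a has
    have hins : insert a s = tg s a := by unfold tg; rw [if_neg has]
    by_cases hs : Even s.card
    · have hodd : Odd (insert a s).card := by rw [hins]; exact odd_tg hs a
      have hnot : ¬ Even (insert a s).card := Nat.not_even_iff_odd.2 hodd
      simp only [dif_pos hs, dif_neg hnot]
      have h1 := hgB ⟨insert a s, hodd⟩
      simp only [hB, mem_Btw] at h1
      have h2 := h1.2 a
      rw [if_pos (Finset.mem_insert_self a s)] at h2
      have h3 : nbm ⟨insert a s, hodd⟩ a = ⟨s, hs⟩ := by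
        apply Subtype.ext
        show tg (insert a s) a = s
        rw [hins, tg_tg]
      rwa [h3] at h2
    · have hodd : Odd s.card := Nat.not_even_iff_odd.1 hs
      have hev : Even (insert a s).card := by rw [hins]; exact even_tg hodd a
      simp only [dif_neg hs, dif_pos hev]
      have h1 := hgB ⟨s, hodd⟩
      simp only [hB, mem_Btw] at h1
      have h2 := h1.2 a
      rw [if_neg has] at h2
      have h3 : nbm ⟨s, hodd⟩ a = ⟨insert a s, hev⟩ := by
        apply Subtype.ext
        show tg s a = insert a s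
        rw [hins]
      rwa [h3] at h2

end Pool.Agent.H97.QD
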