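import Pool.Agent.H97.QD.Embed

/-!
# Choice of the parameters
-/

namespace Pool.Agent.H97.QD

open Finset

lemma size_bound {K r t d l N : ℕ} (hr : 0 < r) (hl : 0 < l) (hdt : d ≤ t ^ 2)
    (hN : N ≤ 2 * ((d + 6) * (r + 1)) * l) :
    (N : ℝ) ≤ ((((2:ℝ) ^ (4 * t + 1))⁻¹) ^ K *
      ((((((2:ℝ) ^ (4 * t + 1))⁻¹) ^ (K + 1) / (2 * r)) ^ K * l / 2)) / 2) *
      2 ^ ((5 * (K * (K + 2)) + K * (r + 1) + r + 9) * (t + 1)) := by
  have h2 : (0:ℝ) < 2 := by norm_num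
  have hr' : (0:ℝ) < r := by exact_mod_cast hr
  have hl' : (0:ℝ) < l := by exact_mod_cast hl
  obtain ⟨a, ha⟩ : ∃ a, a = 4 * t + 1 := ⟨_, rfl⟩
  rw [← ha]
  have hd6 : ((d + 6 : ℕ) : ℝ) ≤ 2 ^ (2 * t + 3) := by
    have h1 : t < 2 ^ t := Nat.lt_two_pow_self
    have h3 : t ^ 2 ≤ (2 ^ t) ^ 2 := Nat.pow_le_pow_left h1.le 2
    have h4 : 1 ≤ (2 ^ t) ^ 2 := Nat.one_le_pow _ _ Nat.one_le_two_pow
    have h5 : 2 ^ (2 * t + 3) = 8 * (2 ^ t) ^ 2 := by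
      rw [← pow_mul]; ring
    have h6 : d + 6 ≤ 2 ^ (2 * t + 3) := by
      rw [h5]; omega
    exact_mod_cast h6
  have hr1 : ((r + 1 : ℕ) : ℝ) ≤ 2 ^ (r + 1) := by
    have h1 : r + 1 < 2 ^ (r + 1) := Nat.lt_two_pow_self
    exact_mod_cast h1.le
  have hr2 : (2 * (r : ℝ)) ≤ 2 ^ (r + 1) := by
    have h1 : r < 2 ^ r := Nat.lt_two_pow_self
    have h3 : 2 * r ≤ 2 ^ (r + 1) := by rw [pow_succ]; omega
    exact_mod_cast h3
  have hN' : (N : ℝ) ≤ 2 * (2 ^ (2 * t + 3) * 2 ^ (r + 1)) * l := by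
    calc (N : ℝ) ≤ ((2 * ((d + 6) * (r + 1)) * l : ℕ) : ℝ) := by exact_mod_cast hN
      _ = 2 * (((d + 6 : ℕ) : ℝ) * ((r + 1 : ℕ) : ℝ)) * l := by push_cast; ring
      _ ≤ _ := by
        apply mul_le_mul_of_nonneg_right _ hl'.le
        apply mul_le_mul_of_nonneg_left _ (by norm_num)
        exact mul_le_mul hd6 hr1 (Nat.cast_nonneg _) (by positivity)
  have hA : (0:ℝ) < 2 ^ a := by positivity
  have key : (((2:ℝ) ^ a)⁻¹) ^ K * (((((2:ℝ) ^ a)⁻¹) ^ (K + 1) / (2 * r)) ^ K * l / 2) / 2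
      = l / (4 * ((2 ^ a) ^ K * ((2 ^ a) ^ (K + 1) * (2 * r)) ^ K)) := by
    rw [inv_pow, inv_pow, inv_eq_one_div, inv_eq_one_div, div_div, div_pow, one_pow]
    field_simp
    ring
  rw [key, div_mul_eq_mul_div, le_div_iff₀ (by positivity)]
  have hpow : 4 * (((2:ℝ) ^ a) ^ K * ((2 ^ a) ^ (K + 1) * (2 * r)) ^ K) ≤
      2 ^ (2 + a * K + (a * (K + 1) + (r + 1)) * K) := by
    have h3 : ((2:ℝ) ^ a) ^ (K + 1) * (2 * r) ≤ 2 ^ (a * (K + 1) + (r + 1)) := by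
      rw [pow_add 2 (a * (K + 1)) (r + 1), pow_mul 2 a (K + 1)]
      exact mul_le_mul_of_nonneg_left hr2 (by positivity)
    have h4 : (((2:ℝ) ^ a) ^ (K + 1) * (2 * r)) ^ K ≤ (2 ^ (a * (K + 1) + (r + 1))) ^ K :=
      pow_le_pow_left₀ (by positivity) h3 K
    rw [pow_add 2 (2 + a * K), pow_add 2 2 (a * K), pow_mul 2 a K,
      pow_mul 2 (a * (K + 1) + (r + 1)) K]
    have h5 : ((2:ℝ) ^ 2) = 4 := by norm_num
    rw [h5, mul_assoc]
    apply mul_le_mul_of_nonneg_left _ (by norm_num)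
    exact mul_le_mul_of_nonneg_left h4 (by positivity)
  calc (N : ℝ) * (4 * (((2:ℝ) ^ a) ^ K * ((2 ^ a) ^ (K + 1) * (2 * r)) ^ K))
      ≤ (2 * (2 ^ (2 * t + 3) * 2 ^ (r + 1)) * l) *
        2 ^ (2 + a * K + (a * (K + 1) + (r + 1)) * K) :=
        mul_le_mul hN' hpow (by positivity) (by positivity)
    _ = l * 2 ^ (1 + (2 * t + 3) + (r + 1) + (2 + a * K + (a * (K + 1) + (r + 1)) * K)) := by
        rw [pow_add _ (1 + (2 * t + 3) + (r + 1)), pow_add _ (1 + (2 * t + 3)), pow_add _ 1]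
        ring
    _ ≤ l * 2 ^ ((5 * (K * (K + 2)) + K * (r + 1) + r + 9) * (t + 1)) := by
        apply mul_le_mul_of_nonneg_left _ hl'.le
        apply pow_le_pow_right₀ (by norm_num)
        rw [ha]
        nlinarith [Nat.zero_le (K * t), Nat.zero_le (K * K * t), Nat.zero_le (K * K),
          Nat.zero_le (K * r * t), Nat.zero_le (r * t)]

/-- Conditions which hold for large `d`. -/
lemma eventually_conds {ε c0 : ℝ} (hε : 0 < ε) (hc0 : 0 < c0) (C : ℕ) :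
    ∃ d0 : ℕ, ∀ d : ℕ, d0 ≤ d → 6 ≤ d ∧
      (8 * d : ℝ) ≤ (2:ℝ) ^ (ε / 8 * Real.sqrt d) ∧
      C * (Real.sqrt d + 2) ≤ ε / 4 * d ∧ 1 ≤ c0 * Real.sqrt d ∧
      4 * (Real.sqrt d + 1) + 1 ≤ d := by
  have hlog2 : 0 < Real.log 2 := Real.log_pos (by norm_num)
  have hsq : Filter.Tendsto (fun d : ℕ => Real.sqrt (d : ℝ)) Filter.atTop Filter.atTop :=
    Real.tendsto_sqrt_atTop.comp tendsto_natCast_atTop_atTop
  -- 8 d ≤ 2 ^ (ε/8 √d)
  have h1 : ∀ᶠ x : ℝ in Filter.atTop, Real.log x ≤ (ε / 8 * Real.log 2 / 4) * x := by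
    have := Real.isLittleO_log_id_atTop.bound (c := ε / 8 * Real.log 2 / 4) (by positivity)
    filter_upwards [this, Filter.eventually_ge_atTop 1] with x hx hx1
    have h2 : 0 ≤ Real.log x := Real.log_nonneg hx1
    rw [Real.norm_eq_abs, Real.norm_eq_abs, abs_of_nonneg h2] at hx
    simpa [abs_of_nonneg (by linarith : (0:ℝ) ≤ x)] using hx
  have h2 := hsq.eventually h1
  have h3 := hsq.eventually (Filter.eventually_ge_atTop (Real.log 8 / (ε / 8 * Real.log 2 / 2)))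
  have h4 := hsq.eventually (Filter.eventually_ge_atTop (8 * C / ε + 2))
  have h5 := hsq.eventually (Filter.eventually_ge_atTop (1 / c0))
  have h6 := hsq.eventually (Filter.eventually_ge_atTop 6)
  have h7 : ∀ᶠ d : ℕ in Filter.atTop, 6 ≤ d := Filter.eventually_ge_atTop 6
  obtain ⟨d0, hd0⟩ := Filter.eventually_atTop.1
    ((((((h2.and h3).and h4).and h5).and h6).and h7))
  refine ⟨d0, fun d hd => ?_⟩
  obtain ⟨⟨⟨⟨⟨g2, g3⟩, g4⟩, g5⟩, g6⟩, g7⟩ := hd0 d hd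
  set s := Real.sqrt (d : ℝ) with hs
  have hdpos : (0:ℝ) ≤ d := Nat.cast_nonneg _
  have hss : s * s = d := Real.mul_self_sqrt hdpos
  have hspos : 0 < s := by linarith
  refine ⟨g7, ?_, ?_, ?_, ?_⟩
  · have hd1 : (0:ℝ) < 8 * d := by rw [← hss]; positivity
    rw [← Real.log_le_log_iff hd1 (by positivity), Real.log_rpow (by norm_num)]
    have hlogd : Real.log (8 * d) = Real.log 8 + (Real.log s + Real.log s) := by
      rw [← hss, Real.log_mul (by norm_num) (by positivity), Real.log_mul hspos.ne' hspos.ne']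
    rw [hlogd]
    rw [div_le_iff₀ (by positivity)] at g3
    nlinarith
  · rw [← hss]
    have hC : (0:ℝ) ≤ C := Nat.cast_nonneg _
    have h8 : 8 * C + 2 * ε ≤ ε * s := by
      have : (8 * C / ε + 2) * ε ≤ s * ε := mul_le_mul_of_nonneg_right g4 hε.le
      have e1 : (8 * (C : ℝ) / ε + 2) * ε = 8 * C + 2 * ε := by field_simp
      linarith
    -- C (s + 2) ≤ ε/4 s²
    have h9 : C * (s + 2) ≤ C * (2 * s) := mul_le_mul_of_nonneg_left (by linarith) hC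
    nlinarith
  · rw [div_le_iff₀ hc0] at g5
    linarith
  · rw [← hss]; nlinarith

end Pool.Agent.H97.QD
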