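import Pool.Agent.H97.QD.Seq

/-!
# The greedy lemma
-/

namespace Pool.Agent.H97.QD

open Finset

open Classical in
/-- number of completions of the partial assignment `f` on `S` which are bad -/
noncomputable def cnt {ι V : Type} [Fintype ι] [DecidableEq ι] (U : ι → Finset V) (Bad : (ι → V) → Prop)
    (S : Finset ι) (f : ι → V) : ℕ :=
  ((Fintype.piFinset U).filter (fun g => Bad (S.piecewise f g))).card

open Classical in
lemma cnt_insert {ι V : Type} [Fintype ι] [DecidableEq ι] (U : ι → Finset V) (Bad : (ι → V) → Prop)
    (S : Finset ι) (f : ι → V) (x : ι) (hx : x ∉ S) (u : V) :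
    cnt U Bad (insert x S) (Function.update f x u) =
      ((Fintype.piFinset U).filter (fun g => Bad (S.piecewise f (Function.update g x u)))).card := by
  unfold cnt
  congr 1
  apply Finset.filter_congr
  intro g _
  have : (insert x S).piecewise (Function.update f x u) g
      = S.piecewise f (Function.update g x u) := by
    funext i
    by_cases hi : i = x
    · subst hi
      simp [Finset.piecewise, hx]
    · by_cases hiS : i ∈ S
      · simp [Finset.piecewise, hi, hiS]
      · simp [Finset.piecewise, hi, hiS]
  rw [this]

open Classical in
lemma sum_cnt {ι V : Type} [Fintype ι] [DecidableEq ι] (U : ι → Finset V) (Bad : (ι → V) → Prop)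
    (S : Finset ι) (f : ι → V) (x : ι) (hx : x ∉ S) :
    ∑ u ∈ U x, (cnt U Bad (insert x S) (Function.update f x u) : ℝ) =
      (U x).card * (cnt U Bad S f : ℝ) := by
  have h := resample U x (fun g => if Bad (S.piecewise f g) then (1 : ℝ) else 0)
  have h1 : ∑ g ∈ Fintype.piFinset U, (if Bad (S.piecewise f g) then (1 : ℝ) else 0)
      = (cnt U Bad S f : ℝ) := by
    unfold cnt
    rw [Finset.card_filter]; push_cast; rfl
  rw [h1, Finset.sum_comm] at h
  rw [mul_comm, h]
  apply Finset.sum_congr rfl
  intro u _
  rw [cnt_insert U Bad S f x hx u, Finset.card_filter]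
  push_cast
  rfl

open Classical in
/-- The greedy lemma: events depending on at most `D` coordinates each, each coordinate being
relevant for at most `D` events, can be avoided by an injective assignment if they are very
unlikely. -/
lemma greedy {ι J V : Type} [Fintype ι] [DecidableEq ι] [Fintype J] (U : ι → Finset V)
    (Bad : J → (ι → V) → Prop) (nb : J → Finset ι) (D : ℕ) (hD : 0 < D)
    (hnb : ∀ j, (nb j).card ≤ D)
    (hdeg : ∀ i, (univ.filter (fun j => i ∈ nb j)).card ≤ D)
    (hdep : ∀ j f g, (∀ i ∈ nb j, f i = g i) → (Bad j f ↔ Bad j g))
    (hU : ∀ i, 2 * Fintype.card ι ≤ (U i).card) {δ : ℝ} (hδ0 : 0 ≤ δ)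
    (hδ : δ * (2 * D) ^ D < 1)
    (hbad : ∀ j, (((Fintype.piFinset U).filter (fun g => Bad j g)).card : ℝ)
      ≤ δ * (Fintype.piFinset U).card) :
    ∃ f : ι → V, (∀ i, f i ∈ U i) ∧ Function.Injective f ∧ ∀ j, ¬ Bad j f := by
  have main : ∀ S : Finset ι, ∃ f : ι → V, (∀ i ∈ S, f i ∈ U i) ∧ Set.InjOn f S ∧
      ∀ j, (cnt U (Bad j) S f : ℝ) ≤ δ * (2 * D) ^ (nb j ∩ S).card *
        (Fintype.piFinset U).card := by
    intro S
    induction S using Finset.induction_on with
    | empty =>
      by_cases hι : Nonempty ι
      · obtain ⟨i0⟩ := hι
        have hne : (U i0).Nonempty := by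
          rw [← Finset.card_pos]
          have := hU i0
          have h2 : 0 < Fintype.card ι := Fintype.card_pos_iff.2 ⟨i0⟩
          omega
        obtain ⟨v, _⟩ := hne
        refine ⟨fun _ => v, by simp, by simp, fun j => ?_⟩
        have := hbad j
        simpa [cnt] using this
      · rw [not_nonempty_iff] at hι
        refine ⟨fun i => hι.elim i, by simp, by simp, fun j => ?_⟩
        have := hbad j
        simpa [cnt] using this
    | insert x S hx ih =>
      obtain ⟨f, hf, hfi, hfc⟩ := ih
      -- bad choices
      let Bj : J → Finset V := fun j => (U x).filter (fun u =>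
        2 * D * (cnt U (Bad j) S f : ℝ) <
          (cnt U (Bad j) (insert x S) (Function.update f x u) : ℝ))
      have hBj : ∀ j, (Bj j).card * (2 * D) ≤ (U x).card := by
        intro j
        have hsum := sum_cnt U (Bad j) S f x hx
        rcases Nat.eq_zero_or_pos (cnt U (Bad j) S f) with h0 | hpos
        · have hB0 : Bj j = ∅ := by
            rw [Finset.eq_empty_iff_forall_notMem]
            intro u hu
            simp only [Bj, Finset.mem_filter, h0, Nat.cast_zero, mul_zero] at hu
            rw [h0] at hsum
            simp only [Nat.cast_zero, mul_zero] at hsum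
            have h1 := (Finset.sum_eq_zero_iff_of_nonneg (fun u _ => Nat.cast_nonneg _)).1 hsum
              u hu.1
            linarith [hu.2]
          rw [hB0]; simp
        · have hposR : (0:ℝ) < (cnt U (Bad j) S f : ℝ) := by exact_mod_cast hpos
          have h1 : ∑ _u ∈ Bj j, 2 * D * (cnt U (Bad j) S f : ℝ) ≤
              ∑ u ∈ U x, (cnt U (Bad j) (insert x S) (Function.update f x u) : ℝ) := by
            calc ∑ _u ∈ Bj j, 2 * D * (cnt U (Bad j) S f : ℝ)
                ≤ ∑ u ∈ Bj j, (cnt U (Bad j) (insert x S) (Function.update f x u) : ℝ) := by
                  apply Finset.sum_le_sum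
                  intro u hu
                  exact (Finset.mem_filter.1 hu).2.le
              _ ≤ _ := by
                  apply Finset.sum_le_sum_of_subset_of_nonneg (Finset.filter_subset _ _)
                  intro u _ _
                  exact Nat.cast_nonneg _
          rw [Finset.sum_const, nsmul_eq_mul, hsum] at h1
          have h2 : ((Bj j).card * (2 * D) : ℝ) * (cnt U (Bad j) S f : ℝ)
              ≤ (U x).card * (cnt U (Bad j) S f : ℝ) := by linarith
          have h3 := le_of_mul_le_mul_right h2 hposR
          exact_mod_cast h3
      have hunion : ((univ.filter (fun j => x ∈ nb j)).biUnion Bj).card * 2 ≤ (U x).card := by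
        have h1 : ((univ.filter (fun j => x ∈ nb j)).biUnion Bj).card ≤
            ∑ j ∈ univ.filter (fun j => x ∈ nb j), (Bj j).card := Finset.card_biUnion_le
        have h2 : (∑ j ∈ univ.filter (fun j => x ∈ nb j), (Bj j).card) * (2 * D) ≤
            D * (U x).card := by
          rw [Finset.sum_mul]
          calc ∑ j ∈ univ.filter (fun j => x ∈ nb j), (Bj j).card * (2 * D)
              ≤ ∑ _j ∈ univ.filter (fun j => x ∈ nb j), (U x).card :=
                Finset.sum_le_sum fun j _ => hBj j
            _ = (univ.filter (fun j => x ∈ nb j)).card * (U x).card := by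
                rw [Finset.sum_const, smul_eq_mul]
            _ ≤ D * (U x).card := Nat.mul_le_mul_right _ (hdeg x)
        have h3 : ((univ.filter (fun j => x ∈ nb j)).biUnion Bj).card * 2 * D ≤
            (U x).card * D := by
          calc ((univ.filter (fun j => x ∈ nb j)).biUnion Bj).card * 2 * D
              = ((univ.filter (fun j => x ∈ nb j)).biUnion Bj).card * (2 * D) := by ring
            _ ≤ (∑ j ∈ univ.filter (fun j => x ∈ nb j), (Bj j).card) * (2 * D) :=
                Nat.mul_le_mul_right _ h1
            _ ≤ D * (U x).card := h2
            _ = (U x).card * D := by ring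
        exact Nat.le_of_mul_le_mul_right h3 hD
      obtain ⟨u, huU, hu1, hu2⟩ : ∃ u ∈ U x, u ∉ S.image f ∧
          u ∉ (univ.filter (fun j => x ∈ nb j)).biUnion Bj := by
        by_contra hcon
        push Not at hcon
        have hsub : U x ⊆ S.image f ∪ (univ.filter (fun j => x ∈ nb j)).biUnion Bj := by
          intro u hu
          rw [Finset.mem_union]
          by_cases h : u ∈ S.image f
          · exact Or.inl h
          · exact Or.inr (hcon u hu h)
        have h1 := (Finset.card_le_card hsub).trans (Finset.card_union_le _ _)
        have h2 : (S.image f).card ≤ S.card := Finset.card_image_le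
        have h3 : S.card < Fintype.card ι := by
          rw [← Finset.card_univ]
          apply Finset.card_lt_card
          rw [Finset.ssubset_univ_iff]
          intro h; rw [h] at hx; exact hx (Finset.mem_univ _)
        have h4 := hU x
        omega
      refine ⟨Function.update f x u, ?_, ?_, ?_⟩
      · intro i hi
        by_cases hix : i = x
        · subst hix; simpa using huU
        · rw [Function.update_of_ne hix]
          exact hf i (Finset.mem_of_mem_insert_of_ne hi hix)
      · intro i hi i' hi' hii
        by_cases hix : i = x
        · subst hix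
          by_cases hix' : i' = i
          · exact hix'.symm
          · exfalso
            rw [Function.update_self, Function.update_of_ne hix'] at hii
            apply hu1
            rw [Finset.mem_image]
            exact ⟨i', Finset.mem_of_mem_insert_of_ne hi' hix', hii.symm⟩
        · by_cases hix' : i' = x
          · subst hix'
            exfalso
            rw [Function.update_self, Function.update_of_ne hix] at hii
            apply hu1
            rw [Finset.mem_image]
            exact ⟨i, Finset.mem_of_mem_insert_of_ne hi hix, hii⟩
          · rw [Function.update_of_ne hix, Function.update_of_ne hix'] at hii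
            exact hfi (Finset.mem_of_mem_insert_of_ne hi hix)
              (Finset.mem_of_mem_insert_of_ne hi' hix') hii
      · intro j
        by_cases hj : x ∈ nb j
        · have h1 : ¬ (2 * D * (cnt U (Bad j) S f : ℝ) <
              (cnt U (Bad j) (insert x S) (Function.update f x u) : ℝ)) := by
            intro hlt
            apply hu2
            rw [Finset.mem_biUnion]
            exact ⟨j, by simpa using hj, Finset.mem_filter.2 ⟨huU, hlt⟩⟩
          push Not at h1
          have h2 : (nb j ∩ insert x S).card = (nb j ∩ S).card + 1 := by
            rw [Finset.inter_insert_of_mem hj, Finset.card_insert_of_notMem]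
            intro h
            exact hx (Finset.mem_inter.1 h).2
          rw [h2, pow_succ]
          refine le_trans h1 ?_
          have h3 := hfc j
          have hD0 : (0:ℝ) ≤ 2 * D := by positivity
          calc 2 * D * (cnt U (Bad j) S f : ℝ)
              ≤ 2 * D * (δ * (2 * D) ^ (nb j ∩ S).card * (Fintype.piFinset U).card) :=
                mul_le_mul_of_nonneg_left h3 hD0
            _ = _ := by ring
        · have h2 : nb j ∩ insert x S = nb j ∩ S := Finset.inter_insert_of_notMem hj
          rw [h2, cnt_insert U (Bad j) S f x hx u]
          refine le_trans (le_of_eq ?_) (hfc j)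
          unfold cnt
          congr 2
          apply Finset.filter_congr
          intro g _
          apply hdep
          intro i hi
          have hix : i ≠ x := fun h => hj (h ▸ hi)
          by_cases hiS : i ∈ S
          · simp [Finset.piecewise, hiS]
          · simp [Finset.piecewise, hiS, hix]
  obtain ⟨f, hf, hfi, hfc⟩ := main Finset.univ
  refine ⟨f, fun i => hf i (Finset.mem_univ i), ?_, ?_⟩
  · intro a b hab
    exact hfi (by simp) (by simp) hab
  · intro j hbadj
    have h1 := hfc j
    have hUne : (Fintype.piFinset U).Nonempty := by
      rw [Fintype.piFinset_nonempty]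
      intro i
      exact ⟨f i, hf i (Finset.mem_univ i)⟩
    have hpos : (0:ℝ) < (Fintype.piFinset U).card := by exact_mod_cast hUne.card_pos
    have h2 : cnt U (Bad j) Finset.univ f = (Fintype.piFinset U).card := by
      unfold cnt
      congr 1
      rw [Finset.filter_eq_self]
      intro g _
      rw [Finset.piecewise_univ]
      exact hbadj
    rw [h2, Finset.inter_univ] at h1
    have h3 : ((2 * D : ℝ)) ^ (nb j).card ≤ (2 * D) ^ D := by
      apply pow_le_pow_right₀ _ (hnb j)
      have : (1:ℝ) ≤ D := by exact_mod_cast hD
      linarith
    have h4 : δ * (2 * D) ^ (nb j).card * ((Fintype.piFinset U).card : ℝ)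
        ≤ δ * (2 * D) ^ D * (Fintype.piFinset U).card := by
      apply mul_le_mul_of_nonneg_right _ hpos.le
      exact mul_le_mul_of_nonneg_left h3 hδ0
    nlinarith

end Pool.Agent.H97.QD
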