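import Pool.Agent.H97.QD.Median

/-!
# Density increments
-/

namespace Pool.Agent.H97.QD

open Finset

variable {V : Type}

/-- Density increment: inside a dense pair there is a large pair whose large subpairs are not much
denser than the pair itself. -/
lemma pair (T : V → V → Prop) (X J : Finset V) (hX : X.Nonempty) (hJ : J.Nonempty)
    {q g lam lam2 : ℝ} {K : ℕ} (hlam : 0 < lam) (hlam1 : lam ≤ 1) (hlam2 : 0 < lam2)
    (hlam21 : lam2 ≤ 1) (hK : 1 < q + K * g) (hg : 0 ≤ g)
    (hd : q * (X.card * J.card) ≤ e T X J) :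
    ∃ A ⊆ X, ∃ B ⊆ J, ∃ p : ℝ, A.Nonempty ∧ B.Nonempty ∧ lam ^ K * X.card ≤ A.card ∧
      lam2 ^ K * J.card ≤ B.card ∧ q ≤ p ∧ p ≤ 1 ∧ e T A B = p * (A.card * B.card) ∧
      ∀ A' ⊆ A, ∀ B' ⊆ B, lam * A.card ≤ A'.card → lam2 * B.card ≤ B'.card →
        e T A' B' ≤ (p + g) * (A'.card * B'.card) := by
  classical
  let P : ℕ → Prop := fun k => ∃ A ⊆ X, ∃ B ⊆ J, A.Nonempty ∧ B.Nonempty ∧
    lam ^ k * X.card ≤ A.card ∧ lam2 ^ k * J.card ≤ B.card ∧
    (q + k * g) * (A.card * B.card) ≤ e T A B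
  have hP0 : P 0 := ⟨X, subset_rfl, J, subset_rfl, hX, hJ, by simp, by simp, by simpa using hd⟩
  have hPK : ¬ P K := by
    rintro ⟨A, _, B, _, hAne, hBne, _, _, h⟩
    have hA : (0:ℝ) < A.card := by exact_mod_cast hAne.card_pos
    have hB : (0:ℝ) < B.card := by exact_mod_cast hBne.card_pos
    have h1 := e_le T A B
    have hAB : (0:ℝ) < A.card * B.card := mul_pos hA hB
    nlinarith
  have hex : ∃ k, ¬ P k := ⟨K, hPK⟩
  obtain ⟨k, hk⟩ : ∃ k, Nat.find hex = k + 1 := by
    rcases h : Nat.find hex with _ | k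
    · exact absurd hP0 (h ▸ Nat.find_spec hex)
    · exact ⟨k, rfl⟩
  have hPk : P k := by
    by_contra hc
    have := Nat.find_min' hex hc
    omega
  have hPk1 : ¬ P (k + 1) := hk ▸ Nat.find_spec hex
  have hkK : k + 1 ≤ K := by
    have := Nat.find_min' hex hPK
    omega
  obtain ⟨A, hAX, B, hBJ, hAne, hBne, hAc, hBc, he⟩ := hPk
  have hA : (0:ℝ) < A.card := by exact_mod_cast hAne.card_pos
  have hB : (0:ℝ) < B.card := by exact_mod_cast hBne.card_pos
  have hAB : (0:ℝ) < A.card * B.card := mul_pos hA hB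
  have hXc : (0:ℝ) < X.card := by exact_mod_cast hX.card_pos
  have hJc : (0:ℝ) < J.card := by exact_mod_cast hJ.card_pos
  refine ⟨A, hAX, B, hBJ, e T A B / (A.card * B.card), hAne, hBne, ?_, ?_, ?_, ?_, ?_, ?_⟩
  · refine le_trans ?_ hAc
    apply mul_le_mul_of_nonneg_right _ hXc.le
    exact pow_le_pow_of_le_one hlam.le hlam1 (by omega)
  · refine le_trans ?_ hBc
    apply mul_le_mul_of_nonneg_right _ hJc.le
    exact pow_le_pow_of_le_one hlam2.le hlam21 (by omega)
  · rw [le_div_iff₀ hAB]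
    have : q ≤ q + k * g := by
      have : (0:ℝ) ≤ k * g := mul_nonneg (Nat.cast_nonneg _) hg
      linarith
    nlinarith
  · rw [div_le_one hAB]
    exact e_le T A B
  · field_simp
  · intro A' hA' B' hB' hA'c hB'c
    have hA'pos : (0:ℝ) < A'.card := lt_of_lt_of_le (mul_pos hlam hA) hA'c
    have hB'pos : (0:ℝ) < B'.card := lt_of_lt_of_le (mul_pos hlam2 hB) hB'c
    have hA'ne : A'.Nonempty := by
      rw [← Finset.card_pos]; exact_mod_cast hA'pos
    have hB'ne : B'.Nonempty := by
      rw [← Finset.card_pos]; exact_mod_cast hB'pos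
    by_contra hcon
    push Not at hcon
    apply hPk1
    refine ⟨A', hA'.trans hAX, B', hB'.trans hBJ, hA'ne, hB'ne, ?_, ?_, ?_⟩
    · calc lam ^ (k + 1) * X.card = lam * (lam ^ k * X.card) := by ring
        _ ≤ lam * A.card := mul_le_mul_of_nonneg_left hAc hlam.le
        _ ≤ A'.card := hA'c
    · calc lam2 ^ (k + 1) * J.card = lam2 * (lam2 ^ k * J.card) := by ring
        _ ≤ lam2 * B.card := mul_le_mul_of_nonneg_left hBc hlam2.le
        _ ≤ B'.card := hB'c
    · refine le_trans ?_ hcon.le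
      apply mul_le_mul_of_nonneg_right _ (mul_pos hA'pos hB'pos).le
      have : q + k * g ≤ e T A B / (A.card * B.card) := by
        rw [le_div_iff₀ hAB]; exact he
      push_cast
      linarith

open Classical in
lemma few_high_in (T : V → V → Prop) (A S : Finset V) (hA : A.Nonempty) {c κ : ℝ} (hκ : 0 ≤ κ)
    (hreg : ∀ B' ⊆ S, κ ≤ B'.card → e T A B' ≤ c * (A.card * B'.card)) :
    ((S.filter (fun y => c < ((inn T A y).card : ℝ) / A.card)).card : ℝ) ≤ κ := by
  have hAc : (0:ℝ) < A.card := by exact_mod_cast hA.card_pos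
  set H := S.filter (fun y => c < ((inn T A y).card : ℝ) / A.card) with hH
  by_contra hcon
  push Not at hcon
  have h1 := hreg H (Finset.filter_subset _ _) hcon.le
  have hHpos : (0:ℝ) < H.card := lt_of_le_of_lt hκ hcon
  have hHne : H.Nonempty := by
    rw [← Finset.card_pos]; exact_mod_cast hHpos
  have h2 : ∑ _y ∈ H, c * A.card < ∑ y ∈ H, ((inn T A y).card : ℝ) := by
    apply Finset.sum_lt_sum_of_nonempty hHne
    intro y hy
    rw [hH, Finset.mem_filter] at hy
    exact (lt_div_iff₀ hAc).1 hy.2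
  rw [Finset.sum_const, nsmul_eq_mul, ← e_eq] at h2
  nlinarith

open Classical in
lemma few_high_out (T : V → V → Prop) (S B : Finset V) (hB : B.Nonempty) {c κ : ℝ} (hκ : 0 ≤ κ)
    (hreg : ∀ A' ⊆ S, κ ≤ A'.card → e T A' B ≤ c * (A'.card * B.card)) :
    ((S.filter (fun x => c < ((out T B x).card : ℝ) / B.card)).card : ℝ) ≤ κ := by
  have hBc : (0:ℝ) < B.card := by exact_mod_cast hB.card_pos
  set H := S.filter (fun x => c < ((out T B x).card : ℝ) / B.card) with hH
  by_contra hcon
  push Not at hcon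
  have h1 := hreg H (Finset.filter_subset _ _) hcon.le
  have hHpos : (0:ℝ) < H.card := lt_of_le_of_lt hκ hcon
  have hHne : H.Nonempty := by
    rw [← Finset.card_pos]; exact_mod_cast hHpos
  have h2 : ∑ _y ∈ H, c * B.card < ∑ y ∈ H, ((out T B y).card : ℝ) := by
    apply Finset.sum_lt_sum_of_nonempty hHne
    intro y hy
    rw [hH, Finset.mem_filter] at hy
    exact (lt_div_iff₀ hBc).1 hy.2
  rw [Finset.sum_const, nsmul_eq_mul] at h2
  have h3 : ∑ y ∈ H, ((out T B y).card : ℝ) = e T H B := rfl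
  rw [h3] at h2
  nlinarith

/-- most `y ∈ S` have almost the average in-density or more -/
lemma few_low_in (T : V → V → Prop) (A S : Finset V) (hA : A.Nonempty) {c κ a b : ℝ}
    (hc : 0 ≤ c) (hκ : 0 ≤ κ) (hb : 0 < b)
    (hreg : ∀ B' ⊆ S, κ ≤ B'.card → e T A B' ≤ c * (A.card * B'.card))
    (havg : (c - a) * (A.card * S.card) ≤ e T A S) :
    open Classical in
    ((S.filter (fun y => ((inn T A y).card : ℝ) < (c - b) * A.card)).card : ℝ) * b
      ≤ a * S.card + κ := by
  classical
  have hAc : (0:ℝ) < A.card := by exact_mod_cast hA.card_pos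
  by_cases hS : S.card = 0
  · rw [Finset.card_eq_zero] at hS
    subst hS
    simpa using hκ
  have hSc : (0:ℝ) < S.card := by
    exact_mod_cast Nat.pos_of_ne_zero hS
  have h := markov S (fun y => ((inn T A y).card : ℝ) / A.card) c a b (κ / S.card) hc
    (fun y _ => by rw [div_le_one hAc]; exact card_inn_le T A y)
    (by
      rw [← Finset.sum_div, ← e_eq, le_div_iff₀ hAc]
      nlinarith)
    (by
      rw [div_mul_cancel₀ _ hSc.ne']
      exact few_high_in T A S hA hκ hreg) hb
  have e1 : (S.filter (fun y => ((inn T A y).card : ℝ) / A.card < c - b))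
      = (S.filter (fun y => ((inn T A y).card : ℝ) < (c - b) * A.card)) := by
    apply Finset.filter_congr
    intro y _
    rw [div_lt_iff₀ hAc]
  rw [e1] at h
  have e2 : (a + κ / S.card) * S.card = a * S.card + κ := by
    field_simp
  rw [e2] at h
  exact h

lemma few_low_out (T : V → V → Prop) (S B : Finset V) (hB : B.Nonempty) {c κ a b : ℝ}
    (hc : 0 ≤ c) (hκ : 0 ≤ κ) (hb : 0 < b)
    (hreg : ∀ A' ⊆ S, κ ≤ A'.card → e T A' B ≤ c * (A'.card * B.card))
    (havg : (c - a) * (S.card * B.card) ≤ e T S B) :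
    open Classical in
    ((S.filter (fun x => ((out T B x).card : ℝ) < (c - b) * B.card)).card : ℝ) * b
      ≤ a * S.card + κ := by
  classical
  have hBc : (0:ℝ) < B.card := by exact_mod_cast hB.card_pos
  by_cases hS : S.card = 0
  · rw [Finset.card_eq_zero] at hS
    subst hS
    simpa using hκ
  have hSc : (0:ℝ) < S.card := by
    exact_mod_cast Nat.pos_of_ne_zero hS
  have h := markov S (fun y => ((out T B y).card : ℝ) / B.card) c a b (κ / S.card) hc
    (fun y _ => by rw [div_le_one hBc]; exact card_out_le T B y)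
    (by
      rw [← Finset.sum_div, le_div_iff₀ hBc]
      have : ∑ y ∈ S, ((out T B y).card : ℝ) = e T S B := rfl
      rw [this]
      nlinarith)
    (by
      rw [div_mul_cancel₀ _ hSc.ne']
      exact few_high_out T S B hB hκ hreg) hb
  have e1 : (S.filter (fun y => ((out T B y).card : ℝ) / B.card < c - b))
      = (S.filter (fun y => ((out T B y).card : ℝ) < (c - b) * B.card)) := by
    apply Finset.filter_congr
    intro y _
    rw [div_lt_iff₀ hBc]
  rw [e1] at h
  have e2 : (a + κ / S.card) * S.card = a * S.card + κ := by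
    field_simp
  rw [e2] at h
  exact h

end Pool.Agent.H97.QD
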