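import Pool.Agent.H97.QD.Tuples

/-!
# Counting typical sequences, resampling one coordinate
-/

namespace Pool.Agent.H97.QD

open Finset

open Classical in
/-- Counting sequences whose consecutive elements are compatible. -/
lemma seq_count {X : Type} (Ω : ℕ → Finset X) (P : ℕ → X → Prop) (R : ℕ → X → X → Prop)
    (c : ℕ → ℝ) (hc : ∀ j, 0 ≤ c j)
    (h0 : c 0 ≤ (((Ω 0).filter (fun x => P 0 x)).card : ℝ)) (M : ℕ)
    (hs : ∀ j, j < M → ∀ x ∈ Ω j, P j x →
      c (j + 1) ≤ (((Ω (j + 1)).filter (fun x' => P (j + 1) x' ∧ R j x x')).card : ℝ)) :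
    ∏ j ∈ Finset.range (M + 1), c j ≤
      (((Fintype.piFinset (fun j : Fin (M + 1) => Ω j)).filter
        (fun x => (∀ j : Fin (M + 1), P j (x j)) ∧
          ∀ j : Fin M, R j (x j.castSucc) (x j.succ))).card : ℝ) := by
  induction M with
  | zero =>
    rw [Finset.prod_range_one]
    refine le_trans h0 ?_
    norm_cast
    apply Finset.card_le_card_of_injOn (fun x : X => (fun _ => x : Fin (0 + 1) → X))
    · intro x hx
      rw [Finset.mem_coe, Finset.mem_filter] at hx
      rw [Finset.mem_coe, Finset.mem_filter, Fintype.mem_piFinset]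
      refine ⟨?_, ?_, ?_⟩
      · intro j
        have : j = 0 := Fin.fin_one_eq_zero j
        subst this
        exact hx.1
      · intro j
        have : j = 0 := Fin.fin_one_eq_zero j
        subst this
        exact hx.2
      · intro j; exact j.elim0
    · intro x _ y _ hxy
      exact congrFun hxy 0
  | succ M ih =>
    have ih' := ih (fun j hj => hs j (by omega))
    set G := (Fintype.piFinset (fun j : Fin (M + 1) => Ω j)).filter
        (fun x => (∀ j : Fin (M + 1), P j (x j)) ∧
          ∀ j : Fin M, R j (x j.castSucc) (x j.succ)) with hG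
    set ext : (Fin (M + 1) → X) → Finset X := fun x =>
      (Ω (M + 1)).filter (fun x' => P (M + 1) x' ∧ R M (x (Fin.last M)) x') with hext
    have hextc : ∀ x ∈ G, c (M + 1) ≤ ((ext x).card : ℝ) := by
      intro x hx
      rw [hG, Finset.mem_filter, Fintype.mem_piFinset] at hx
      have h1 := hx.1 (Fin.last M)
      have h2 := hx.2.1 (Fin.last M)
      rw [Fin.val_last] at h1 h2
      exact hs M (by omega) _ h1 h2
    have hcard : (G.sigma ext).card ≤ ((Fintype.piFinset (fun j : Fin (M + 1 + 1) => Ω j)).filter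
        (fun x => (∀ j : Fin (M + 1 + 1), P j (x j)) ∧
          ∀ j : Fin (M + 1), R j (x j.castSucc) (x j.succ))).card := by
      apply Finset.card_le_card_of_injOn
        (fun z : (Σ _ : Fin (M + 1) → X, X) => (Fin.snoc z.1 z.2 : Fin (M + 1 + 1) → X))
      · rintro ⟨x, v⟩ hz
        rw [Finset.mem_coe, Finset.mem_sigma] at hz
        obtain ⟨hx, hv⟩ := hz
        simp only at hx hv
        rw [hG, Finset.mem_filter, Fintype.mem_piFinset] at hx
        obtain ⟨hx0, hxP, hxR⟩ := hx
        rw [hext, Finset.mem_filter] at hv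
        obtain ⟨hvΩ, hvP, hvR⟩ := hv
        rw [Finset.mem_coe, Finset.mem_filter, Fintype.mem_piFinset]
        refine ⟨?_, ?_, ?_⟩
        · intro j
          refine Fin.lastCases ?_ (fun j => ?_) j
          · simp only [Fin.snoc_last, Fin.val_last]
            exact hvΩ
          · simp only [Fin.snoc_castSucc, Fin.val_castSucc]
            exact hx0 j
        · intro j
          refine Fin.lastCases ?_ (fun j => ?_) j
          · simp only [Fin.snoc_last, Fin.val_last]
            exact hvP
          · simp only [Fin.snoc_castSucc, Fin.val_castSucc]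
            exact hxP j
        · intro j
          refine Fin.lastCases ?_ (fun j => ?_) j
          · have h1 : (Fin.last M).succ = Fin.last (M + 1) := rfl
            simp only [h1, Fin.snoc_last, Fin.val_last, Fin.snoc_castSucc]
            exact hvR
          · have h1 : (j.castSucc).succ = (j.succ).castSucc := rfl
            simp only [h1, Fin.snoc_castSucc, Fin.val_castSucc]
            exact hxR j
      · rintro ⟨x, v⟩ _ ⟨x', v'⟩ _ hxx
        simp only at hxx
        have h3 := Fin.snoc_inj.1 hxx
        rw [h3.1, h3.2]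
    rw [Finset.prod_range_succ]
    calc (∏ j ∈ Finset.range (M + 1), c j) * c (M + 1) ≤ G.card * c (M + 1) :=
          mul_le_mul_of_nonneg_right ih' (hc _)
      _ = ∑ _x ∈ G, c (M + 1) := by rw [Finset.sum_const, nsmul_eq_mul]
      _ ≤ ∑ x ∈ G, ((ext x).card : ℝ) := Finset.sum_le_sum hextc
      _ = ((G.sigma ext).card : ℝ) := by rw [Finset.card_sigma]; push_cast; rfl
      _ ≤ _ := by exact_mod_cast hcard

open Classical in
/-- Resampling one coordinate. -/
lemma resample {ι X : Type} [Fintype ι] [DecidableEq ι] (Ω : ι → Finset X) (k : ι)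
    (f : (ι → X) → ℝ) :
    (∑ x ∈ Fintype.piFinset Ω, f x) * (Ω k).card =
      ∑ x ∈ Fintype.piFinset Ω, ∑ z ∈ Ω k, f (Function.update x k z) := by
  have h1 : (∑ x ∈ Fintype.piFinset Ω, f x) * (Ω k).card
      = ∑ p ∈ (Fintype.piFinset Ω) ×ˢ (Ω k), f p.1 := by
    rw [Finset.sum_product, Finset.sum_mul]
    apply Finset.sum_congr rfl
    intro x _
    show f x * (Ω k).card = ∑ _y ∈ Ω k, f x
    rw [Finset.sum_const, nsmul_eq_mul, mul_comm]
  have h2 : ∑ x ∈ Fintype.piFinset Ω, ∑ z ∈ Ω k, f (Function.update x k z)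
      = ∑ p ∈ (Fintype.piFinset Ω) ×ˢ (Ω k), f (Function.update p.1 k p.2) := by
    rw [Finset.sum_product]
  rw [h1, h2]
  symm
  refine Finset.sum_bij' (fun p _ => (Function.update p.1 k p.2, p.1 k))
    (fun p _ => (Function.update p.1 k p.2, p.1 k)) ?_ ?_ ?_ ?_ ?_
  · rintro ⟨x, z⟩ hp
    rw [Finset.mem_product, Fintype.mem_piFinset] at hp ⊢
    refine ⟨fun i => ?_, hp.1 k⟩
    by_cases hi : i = k
    · subst hi; simpa using hp.2
    · simpa [Function.update_of_ne hi] using hp.1 i
  · rintro ⟨x, z⟩ hp
    rw [Finset.mem_product, Fintype.mem_piFinset] at hp ⊢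
    refine ⟨fun i => ?_, hp.1 k⟩
    by_cases hi : i = k
    · subst hi; simpa using hp.2
    · simpa [Function.update_of_ne hi] using hp.1 i
  · rintro ⟨x, z⟩ _
    simp
  · rintro ⟨x, z⟩ _
    simp
  · rintro ⟨x, z⟩ _
    rfl

end Pool.Agent.H97.QD
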