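import Pool.Agent.H97.QD.Clean

/-!
# Typical tuples
-/

namespace Pool.Agent.H97.QD

open Finset

variable {V : Type}

/-- A pair with minimum degree conditions on both sides and one-sided regularity. -/
structure Link (T : V → V → Prop) (A B : Finset V) (p τ lam : ℝ) : Prop where
  hin : ∀ y ∈ B, (p - τ) * A.card ≤ (inn T A y).card
  hout : ∀ w ∈ A, (p - τ) * B.card ≤ (out T B w).card
  reg : ∀ A' ⊆ A, ∀ B' ⊆ B, lam * A.card ≤ A'.card →
    lam * B.card ≤ B'.card → e T A' B' ≤ (p + τ) * (A'.card * B'.card)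

lemma CChain.link {T : V → V → Prop} {n : ℕ} {W : ℕ → Finset V} {p : ℕ → ℝ} {q τ lam w0 : ℝ}
    (h : CChain T n W p q τ lam w0) {i : ℕ} (hi : i < n) :
    Link T (W i) (W (i + 1)) (p i) τ lam :=
  ⟨h.hin i hi, h.hout i hi, h.reg i hi⟩

open Classical in
lemma Link.low_in {T : V → V → Prop} {A B : Finset V} {p τ lam ρ : ℝ} (h : Link T A B p τ lam)
    (hp : 0 ≤ p + τ) (hlam : 0 ≤ lam) (hρ : 0 < ρ + τ) {S : Finset V} (hS : S ⊆ A)
    (hSne : S.Nonempty) (hSc : lam * A.card ≤ S.card) :
    ((B.filter (fun x => ((inn T S x).card : ℝ) < (p - ρ) * S.card)).card : ℝ) * (ρ + τ)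
      ≤ (2 * τ + lam) * B.card := by
  have h1 := few_low_in T S B hSne (c := p + τ) (κ := lam * B.card) (a := 2 * τ) (b := ρ + τ)
    hp (by positivity) hρ (fun B' hB' hB'c => h.reg S hS B' hB' hSc hB'c)
    (by
      unfold e
      calc (p + τ - 2 * τ) * ((S.card : ℝ) * B.card) = ∑ _w ∈ S, (p - τ) * B.card := by
            rw [Finset.sum_const, nsmul_eq_mul]; ring
        _ ≤ ∑ w ∈ S, ((out T B w).card : ℝ) := Finset.sum_le_sum fun w hw => h.hout w (hS hw))
  have h2 : p + τ - (ρ + τ) = p - ρ := by ring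
  rw [h2] at h1
  linarith

open Classical in
lemma Link.low_out {T : V → V → Prop} {A B : Finset V} {p τ lam ρ : ℝ} (h : Link T A B p τ lam)
    (hp : 0 ≤ p + τ) (hlam : 0 ≤ lam) (hρ : 0 < ρ + τ) {S : Finset V} (hS : S ⊆ B)
    (hSne : S.Nonempty) (hSc : lam * B.card ≤ S.card) :
    ((A.filter (fun x => ((out T S x).card : ℝ) < (p - ρ) * S.card)).card : ℝ) * (ρ + τ)
      ≤ (2 * τ + lam) * A.card := by
  have h1 := few_low_out T A S hSne (c := p + τ) (κ := lam * A.card) (a := 2 * τ) (b := ρ + τ)
    hp (by positivity) hρ (fun A' hA' hA'c => h.reg A' hA' S hS hA'c hSc)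
    (by
      rw [e_eq]
      calc (p + τ - 2 * τ) * ((A.card : ℝ) * S.card) = ∑ _w ∈ S, (p - τ) * A.card := by
            rw [Finset.sum_const, nsmul_eq_mul]; ring
        _ ≤ ∑ w ∈ S, ((inn T A w).card : ℝ) := Finset.sum_le_sum fun w hw => h.hin w (hS hw))
  have h2 : p + τ - (ρ + τ) = p - ρ := by ring
  rw [h2] at h1
  linarith

open Classical in
lemma Link.high_in {T : V → V → Prop} {A B : Finset V} {p τ lam : ℝ} (h : Link T A B p τ lam)
    (hlam : 0 ≤ lam) {S : Finset V} (hS : S ⊆ A)
    (hSne : S.Nonempty) (hSc : lam * A.card ≤ S.card) :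
    ((B.filter (fun x => (p + τ) * S.card < ((inn T S x).card : ℝ))).card : ℝ)
      ≤ lam * B.card := by
  have h1 := few_high_in T S B hSne (c := p + τ) (κ := lam * B.card)
    (by positivity) (fun B' hB' hB'c => h.reg S hS B' hB' hSc hB'c)
  have hSp : (0:ℝ) < S.card := by exact_mod_cast hSne.card_pos
  have e1 : (B.filter (fun y => p + τ < ((inn T S y).card : ℝ) / S.card))
      = (B.filter (fun x => (p + τ) * S.card < ((inn T S x).card : ℝ))) := by
    apply Finset.filter_congr
    intro y _
    rw [lt_div_iff₀ hSp]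
  rwa [e1] at h1

open Classical in
lemma Link.high_out {T : V → V → Prop} {A B : Finset V} {p τ lam : ℝ} (h : Link T A B p τ lam)
    (hlam : 0 ≤ lam) {S : Finset V} (hS : S ⊆ B)
    (hSne : S.Nonempty) (hSc : lam * B.card ≤ S.card) :
    ((A.filter (fun x => (p + τ) * S.card < ((out T S x).card : ℝ))).card : ℝ)
      ≤ lam * A.card := by
  have h1 := few_high_out T A S hSne (c := p + τ) (κ := lam * A.card)
    (by positivity) (fun A' hA' hA'c => h.reg A' hA' S hS hA'c hSc)
  have hSp : (0:ℝ) < S.card := by exact_mod_cast hSne.card_pos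
  have e1 : (A.filter (fun y => p + τ < ((out T S y).card : ℝ) / S.card))
      = (A.filter (fun x => (p + τ) * S.card < ((out T S x).card : ℝ))) := by
    apply Finset.filter_congr
    intro y _
    rw [lt_div_iff₀ hSp]
  rwa [e1] at h1

open Classical in
/-- common out-neighbours in `B` of a tuple -/
noncomputable def outT (T : V → V → Prop) (B : Finset V) {k : ℕ} (x : Fin k → V) : Finset V :=
  B.filter (fun b => ∀ s, T (x s) b)

open Classical in
/-- common in-neighbours in `A` of a tuple -/
noncomputable def innT (T : V → V → Prop) (A : Finset V) {k : ℕ} (x : Fin k → V) : Finset V :=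
  A.filter (fun a => ∀ s, T a (x s))

lemma mem_outT {T : V → V → Prop} {B : Finset V} {k : ℕ} {x : Fin k → V} {b : V} :
    b ∈ outT T B x ↔ b ∈ B ∧ ∀ s, T (x s) b := by
  classical
  simp [outT]

lemma mem_innT {T : V → V → Prop} {A : Finset V} {k : ℕ} {x : Fin k → V} {a : V} :
    a ∈ innT T A x ↔ a ∈ A ∧ ∀ s, T a (x s) := by
  classical
  simp [innT]

lemma outT_subset (T : V → V → Prop) (B : Finset V) {k : ℕ} (x : Fin k → V) :
    outT T B x ⊆ B := by
  classical
  exact Finset.filter_subset _ _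

lemma innT_subset (T : V → V → Prop) (B : Finset V) {k : ℕ} (x : Fin k → V) :
    innT T B x ⊆ B := by
  classical
  exact Finset.filter_subset _ _

lemma innT_mono (T : V → V → Prop) {A B : Finset V} (h : A ⊆ B) {k : ℕ} (x : Fin k → V) :
    innT T A x ⊆ innT T B x := by
  intro a ha
  rw [mem_innT] at ha ⊢
  exact ⟨h ha.1, ha.2⟩

lemma outT_cons (T : V → V → Prop) (B : Finset V) {k : ℕ} (v : V) (x : Fin k → V) :
    outT T B (Fin.cons v x : Fin (k + 1) → V) = out T (outT T B x) v := by
  ext b
  rw [mem_outT, mem_out, mem_outT, Fin.forall_fin_succ]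
  simp only [Fin.cons_zero, Fin.cons_succ]
  tauto

lemma innT_cons (T : V → V → Prop) (A : Finset V) {k : ℕ} (v : V) (x : Fin k → V) :
    innT T A (Fin.cons v x : Fin (k + 1) → V) = inn T (innT T A x) v := by
  ext b
  rw [mem_innT, mem_inn, mem_innT, Fin.forall_fin_succ]
  simp only [Fin.cons_zero, Fin.cons_succ]
  tauto

/-- The conditions on a typical tuple. -/
def GoodT (T : V → V → Prop) (S A B : Finset V) (p p' τ ρ : ℝ) {k : ℕ} (x : Fin k → V) : Prop :=
  ((p - ρ) ^ k * S.card ≤ (innT T S x).card) ∧ ((innT T A x).card ≤ (p + τ) ^ k * A.card) ∧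
  ((p' - ρ) ^ k * B.card ≤ (outT T B x).card) ∧ ((outT T B x).card ≤ (p' + τ) ^ k * B.card)

open Classical in
/-- Most one-step extensions of a typical tuple are typical. -/
lemma ext_good {T : V → V → Prop} {A0 W B0 : Finset V} {p p' τ lam ρ η : ℝ}
    (h1 : Link T A0 W p τ lam) (h2 : Link T W B0 p' τ lam)
    (hp : 0 ≤ p + τ) (hp' : 0 ≤ p' + τ) (hlam : 0 ≤ lam) (hρ : 0 < ρ + τ)
    (hη : 2 * (2 * τ + lam) ≤ (η - 2 * lam) * (ρ + τ))
    {S A B : Finset V} (hSA : S ⊆ A) (hA : A ⊆ A0) (hB : B ⊆ B0) (hS0 : S.Nonempty)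
    (hB0 : B.Nonempty) (hSc : lam * A0.card ≤ S.card) (hBc : lam * B0.card ≤ B.card) :
    (1 - η) * W.card ≤ ((W.filter (fun x => ((p - ρ) * S.card ≤ (inn T S x).card) ∧
      ((inn T A x).card ≤ (p + τ) * A.card) ∧ ((p' - ρ) * B.card ≤ (out T B x).card) ∧
      ((out T B x).card ≤ (p' + τ) * B.card))).card : ℝ) := by
  have a1 := h1.low_in hp hlam hρ (hSA.trans hA) hS0 hSc
  have a2 := h1.high_in hlam hA (hS0.mono hSA) (le_trans hSc (by
    exact_mod_cast Finset.card_le_card hSA))
  have a3 := h2.low_out hp' hlam hρ hB hB0 hBc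
  have a4 := h2.high_out hlam hB hB0 hBc
  set G := W.filter (fun x => ((p - ρ) * S.card ≤ (inn T S x).card) ∧
      ((inn T A x).card ≤ (p + τ) * A.card) ∧ ((p' - ρ) * B.card ≤ (out T B x).card) ∧
      ((out T B x).card ≤ (p' + τ) * B.card)) with hG
  set L1 := W.filter (fun x => ((inn T S x).card : ℝ) < (p - ρ) * S.card)
  set L2 := W.filter (fun x => (p + τ) * A.card < ((inn T A x).card : ℝ))
  set L3 := W.filter (fun x => ((out T B x).card : ℝ) < (p' - ρ) * B.card)
  set L4 := W.filter (fun x => (p' + τ) * B.card < ((out T B x).card : ℝ))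
  have hcov : W ⊆ G ∪ (L1 ∪ (L2 ∪ (L3 ∪ L4))) := by
    intro x hx
    simp only [Finset.mem_union, hG, L1, L2, L3, L4, Finset.mem_filter, hx, true_and]
    by_contra hcon
    push Not at hcon
    obtain ⟨c1, c2, c3, c4, c5⟩ := hcon
    exact absurd (c1 c2 c3 c4) (not_lt.2 c5)
  have hcard : W.card ≤ G.card + (L1.card + (L2.card + (L3.card + L4.card))) := by
    refine (Finset.card_le_card hcov).trans ?_
    refine (Finset.card_union_le _ _).trans ?_
    gcongr
    refine (Finset.card_union_le _ _).trans ?_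
    gcongr
    refine (Finset.card_union_le _ _).trans ?_
    gcongr
    exact Finset.card_union_le _ _
  have hcard' : (W.card : ℝ) ≤ G.card + (L1.card + (L2.card + (L3.card + L4.card))) := by
    exact_mod_cast hcard
  have hW : (0:ℝ) ≤ W.card := Nat.cast_nonneg _
  have h5 : ((L1.card : ℝ) + L3.card) * (ρ + τ) ≤ ((η - 2 * lam) * W.card) * (ρ + τ) := by
    nlinarith
  have h6 := le_of_mul_le_mul_right h5 hρ
  linarith

open Classical in
/-- There are many typical tuples. -/
lemma good_tuples {T : V → V → Prop} {A0 W B0 : Finset V} {p p' τ lam ρ η β : ℝ} {t : ℕ}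
    (h1 : Link T A0 W p τ lam) (h2 : Link T W B0 p' τ lam)
    (hβ : 0 < β) (hβ1 : β ≤ 1) (hpβ : β ≤ p - ρ) (hpβ' : β ≤ p' - ρ) (hτ : 0 ≤ τ) (hρ0 : 0 < ρ)
    (hlam : 0 < lam) (hη1 : η ≤ 1)
    (hη : 2 * (2 * τ + lam) ≤ (η - 2 * lam) * (ρ + τ))
    {S : Finset V} (hSA : S ⊆ A0) (hA0 : A0.Nonempty) (hB0 : B0.Nonempty)
    (hSc : lam * A0.card ≤ β ^ t * S.card) (hBc : lam ≤ β ^ t) (k : ℕ) (hk : k ≤ t) :
    ((1 - η) * W.card) ^ k ≤ (((Fintype.piFinset (fun _ : Fin k => W)).filter
      (fun x => GoodT T S A0 B0 p p' τ ρ x)).card : ℝ) := by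
  have hApos : (0:ℝ) < A0.card := by exact_mod_cast hA0.card_pos
  have hBpos : (0:ℝ) < B0.card := by exact_mod_cast hB0.card_pos
  have hSpos : (0:ℝ) < S.card := by
    have h3 : 0 < β ^ t * S.card := lt_of_lt_of_le (mul_pos hlam hApos) hSc
    exact (pos_iff_pos_of_mul_pos h3).1 (by positivity)
  induction k with
  | zero =>
    have : (Fintype.piFinset (fun _ : Fin 0 => W)).filter
      (fun x => GoodT T S A0 B0 p p' τ ρ x) = Finset.univ := by
      apply Finset.eq_univ_of_forall
      intro x
      rw [Finset.mem_filter]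
      refine ⟨?_, ?_⟩
      · rw [Fintype.mem_piFinset]; intro i; exact i.elim0
      · have e1 : ∀ A : Finset V, innT T A x = A := by
          intro A; ext a; rw [mem_innT]; simp
        have e2 : ∀ A : Finset V, outT T A x = A := by
          intro A; ext a; rw [mem_outT]; simp
        unfold GoodT
        rw [e1, e1, e2]
        simp
    rw [this]
    simp
  | succ k ih =>
    have ih' := ih (by omega)
    set GT := (Fintype.piFinset (fun _ : Fin k => W)).filter
      (fun x => GoodT T S A0 B0 p p' τ ρ x) with hGT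
    set ext : (Fin k → V) → Finset V := fun x => W.filter (fun v =>
      ((p - ρ) * (innT T S x).card ≤ (inn T (innT T S x) v).card) ∧
      ((inn T (innT T A0 x) v).card ≤ (p + τ) * (innT T A0 x).card) ∧
      ((p' - ρ) * (outT T B0 x).card ≤ (out T (outT T B0 x) v).card) ∧
      ((out T (outT T B0 x) v).card ≤ (p' + τ) * (outT T B0 x).card)) with hext
    have hext_card : ∀ x ∈ GT, (1 - η) * W.card ≤ ((ext x).card : ℝ) := by
      intro x hx
      rw [hGT, Finset.mem_filter] at hx
      obtain ⟨_, g1, g2, g3, g4⟩ := hx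
      have hk' : β ^ t ≤ β ^ k := pow_le_pow_of_le_one hβ.le hβ1 (by omega)
      have hS1 : lam * A0.card ≤ ((innT T S x).card : ℝ) := by
        refine le_trans hSc (le_trans ?_ g1)
        apply mul_le_mul_of_nonneg_right _ hSpos.le
        exact le_trans hk' (pow_le_pow_left₀ hβ.le hpβ k)
      have hB1 : lam * B0.card ≤ ((outT T B0 x).card : ℝ) := by
        refine le_trans ?_ g3
        apply mul_le_mul_of_nonneg_right _ hBpos.le
        exact le_trans hBc (le_trans hk' (pow_le_pow_left₀ hβ.le hpβ' k))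
      have hS1pos : (0:ℝ) < ((innT T S x).card : ℝ) := lt_of_lt_of_le (mul_pos hlam hApos) hS1
      have hB1pos : (0:ℝ) < ((outT T B0 x).card : ℝ) := lt_of_lt_of_le (mul_pos hlam hBpos) hB1
      exact ext_good h1 h2 (by linarith) (by linarith) hlam.le (by linarith) hη
        (innT_mono T hSA x) (innT_subset T A0 x) (outT_subset T B0 x)
        (by rw [← Finset.card_pos]; exact_mod_cast hS1pos)
        (by rw [← Finset.card_pos]; exact_mod_cast hB1pos) hS1 hB1
    have hcard : ((GT.sigma ext).card : ℝ) ≤ (((Fintype.piFinset (fun _ : Fin (k + 1) => W)).filter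
      (fun x => GoodT T S A0 B0 p p' τ ρ x)).card : ℝ) := by
      have : (GT.sigma ext).card ≤ ((Fintype.piFinset (fun _ : Fin (k + 1) => W)).filter
          (fun x => GoodT T S A0 B0 p p' τ ρ x)).card := by
        apply Finset.card_le_card_of_injOn
          (fun z : (Σ _ : Fin k → V, V) => (Fin.cons z.2 z.1 : Fin (k + 1) → V))
        · rintro ⟨x, v⟩ hz
          rw [Finset.mem_coe, Finset.mem_sigma] at hz
          obtain ⟨hx, hv⟩ := hz
          simp only at hx hv
          rw [hGT, Finset.mem_filter, Fintype.mem_piFinset] at hx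
          obtain ⟨hx0, g1, g2, g3, g4⟩ := hx
          rw [hext, Finset.mem_filter] at hv
          obtain ⟨hvW, e1, e2, e3, e4⟩ := hv
          rw [Finset.mem_coe, Finset.mem_filter, Fintype.mem_piFinset]
          refine ⟨?_, ?_⟩
          · intro s
            refine Fin.cases ?_ (fun s => ?_) s
            · exact hvW
            · exact hx0 s
          · unfold GoodT
            rw [innT_cons, innT_cons, outT_cons]
            refine ⟨?_, ?_, ?_, ?_⟩
            · refine le_trans ?_ e1
              calc (p - ρ) ^ (k + 1) * (S.card : ℝ) = (p - ρ) * ((p - ρ) ^ k * S.card) := by ring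
                _ ≤ (p - ρ) * (innT T S x).card :=
                  mul_le_mul_of_nonneg_left g1 (by linarith)
            · refine le_trans e2 ?_
              calc (p + τ) * ((innT T A0 x).card : ℝ) ≤ (p + τ) * ((p + τ) ^ k * A0.card) :=
                    mul_le_mul_of_nonneg_left g2 (by linarith)
                _ = (p + τ) ^ (k + 1) * A0.card := by ring
            · refine le_trans ?_ e3
              calc (p' - ρ) ^ (k + 1) * (B0.card : ℝ) = (p' - ρ) * ((p' - ρ) ^ k * B0.card) := by
                    ring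
                _ ≤ (p' - ρ) * (outT T B0 x).card :=
                  mul_le_mul_of_nonneg_left g3 (by linarith)
            · refine le_trans e4 ?_
              calc (p' + τ) * ((outT T B0 x).card : ℝ) ≤ (p' + τ) * ((p' + τ) ^ k * B0.card) :=
                    mul_le_mul_of_nonneg_left g4 (by linarith)
                _ = (p' + τ) ^ (k + 1) * B0.card := by ring
        · rintro ⟨x, v⟩ _ ⟨x', v'⟩ _ hxx
          simp only at hxx
          have h3 := Fin.cons_inj.1 hxx
          rw [h3.1, h3.2]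
      exact_mod_cast this
    refine le_trans ?_ hcard
    rw [Finset.card_sigma]
    push_cast
    calc ((1 - η) * (W.card : ℝ)) ^ (k + 1) = ((1 - η) * W.card) ^ k * ((1 - η) * W.card) := by
          rw [pow_succ]
      _ ≤ GT.card * ((1 - η) * W.card) := by
          apply mul_le_mul_of_nonneg_right ih'
          have : 0 ≤ 1 - η := by linarith
          positivity
      _ = ∑ _x ∈ GT, (1 - η) * W.card := by rw [Finset.sum_const, nsmul_eq_mul]
      _ ≤ ∑ x ∈ GT, ((ext x).card : ℝ) := Finset.sum_le_sum hext_card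

end Pool.Agent.H97.QD
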